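import Mathlib

/-!
# The closure argument (abstract form of Lovasz' rotation)

`T` is the set of the sides of the paths, `out τ` the outer end, `inn τ` the inner end (the
neighbour of `x`), `A` the set of the vertices `v` for which `xv` is an edge of the new graph, `S` the
new leaves.

Proof.  Choose `ε : V → T` with `out (ε v) = some v` for all `v ∈ A`.  Let `U` be the smallest set
containing `S` with: `v ∈ U`, `inn (ε v) = some z` imply `z ∈ U` (an inductive predicate); `U ⊆ A` by
`hinn`.  Put `F = {ε v : v ∈ U}` (a finset, `T` is finite).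
* `h1`: take `v ∈ U` with `τ = ε v`.
* `h2`: if `a ∈ A` and some `τ ∈ F` has `out τ = some a`, then `τ = ε v`, `v ∈ U`, `out τ = some v`, so
  `v = a` and `τ = ε a` (uniqueness), `a ∈ U`.  If moreover `inn τ' = some a` with `τ' ∉ F`: then `a ∉ S`
  by `hinn`; every element of `U` is in `S` or is `z` with `inn (ε v) = some z`, `v ∈ U` (cases on the
  inductive predicate), so `inn (ε v) = some a = inn τ'` and `τ' = ε v ∈ F` by `hinj`, a contradiction.
* `h3`: if `a ∈ A`, `a ∉ S` and no `τ ∈ F` has `out τ = some a`, i.e. `a ∉ U`: take `τ` with `inn τ = some a`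
  (`hsur`); if `τ = ε v ∈ F` with `v ∈ U` then `a ∈ U`, a contradiction. So `τ ∉ F`.
  For `a ∈ S` always `a ∈ U`, `ε a ∈ F`.
* `h4`: `F.card = U.card` (as `out (ε v) = some v`), the elements `τ = ε v` of `F` with `inn τ ≠ none`
  correspond bijectively to the elements of `U \ S` (`τ ↦ inn τ`, injective by `hinj`), so
  the number of `τ ∈ F` with `inn τ = none` is `U.card - (U \ S).card = S.card`.
* `h5`: let `out τ = some v`, `v ∈ A`, `v ∉ S`.  If `v ∈ U` then `v = z` with `inn (ε w) = some z`, `w ∈ U`, so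
  `ε w ∈ F` with `inn (ε w) = some v`.  If `v ∉ U` then `τ ∉ F` (if `τ = ε w`, `w ∈ U`, then `w = v`).
  For `v ∉ A`: `τ ∉ F` by `h1`.
-/

namespace Pool.Agent.Lib.MP_94420a_co

private inductive AbsU {T V : Type} (inn : T → Option V) (ε : V → T) (S : Finset V) : V → Prop
  | base {v : V} (h : v ∈ S) : AbsU inn ε S v
  | step {v z : V} (h : AbsU inn ε S v) (h' : inn (ε v) = some z) : AbsU inn ε S z

theorem closure_lemma {T V : Type} [Fintype T] [DecidableEq T] [Fintype V] [DecidableEq V]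
    (out inn : T → Option V) (A : V → Prop) (S : Finset V)
    (hout : ∀ v, A v → ∃ τ, out τ = some v)
    (hSA : ∀ v ∈ S, A v)
    (hinn : ∀ τ z, inn τ = some z → A z ∧ z ∉ S)
    (hinj : ∀ τ τ' z, inn τ = some z → inn τ' = some z → τ = τ')
    (hsur : ∀ a, A a → a ∉ S → ∃ τ, inn τ = some a) :
    ∃ F : Finset T,
      (∀ τ ∈ F, ∃ v, A v ∧ out τ = some v) ∧
      (∀ τ ∈ F, ∀ τ' ∈ F, out τ = out τ' → τ = τ') ∧
      (∀ τ ∈ F, ∀ τ' ∉ F, ∀ a, out τ = some a → inn τ' ≠ some a) ∧
      (∀ a, A a → (∃ τ ∈ F, out τ = some a) ∨ (∃ τ, τ ∉ F ∧ inn τ = some a)) ∧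
      (F.filter fun τ => inn τ = none).card = S.card ∧
      (∀ τ v, out τ = some v → v ∉ S → (∃ τ' ∈ F, inn τ' = some v) ∨ τ ∉ F) := by
  classical
  by_cases hT : Nonempty T
  swap
  · have hT' : IsEmpty T := not_nonempty_iff.mp hT
    have hS : S = ∅ := by
      rw [Finset.eq_empty_iff_forall_notMem]
      intro v hv
      obtain ⟨τ, _⟩ := hout v (hSA v hv)
      exact hT'.elim τ
    refine ⟨∅, by simp, by simp, by simp, ?_, by simp [hS], by simp⟩
    intro a ha
    obtain ⟨τ, _⟩ := hout a ha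
    exact hT'.elim τ
  have hε : ∃ ε : V → T, ∀ v, A v → out (ε v) = some v := by
    refine ⟨fun v => if h : A v then (hout v h).choose else hT.some, fun v hv => ?_⟩
    simp only [hv, dif_pos]
    exact (hout v hv).choose_spec
  obtain ⟨ε, hε⟩ := hε
  have hUA : ∀ v, AbsU inn ε S v → A v := by
    intro v hv
    cases hv with
    | base h => exact hSA v h
    | step h h' => exact (hinn _ _ h').1
  have hUcase : ∀ v, AbsU inn ε S v → v ∉ S → ∃ w, AbsU inn ε S w ∧ inn (ε w) = some v := by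
    intro v hv hS
    cases hv with
    | base h => exact absurd h hS
    | step h h' => exact ⟨_, h, h'⟩
  have hSU : ∀ v ∈ S, AbsU inn ε S v := fun v hv => AbsU.base hv
  set U : Finset V := Finset.univ.filter (fun v => AbsU inn ε S v) with hU
  have memU : ∀ v, v ∈ U ↔ AbsU inn ε S v := fun v => by simp [hU]
  set F : Finset T := U.image ε with hF
  have memF : ∀ τ, τ ∈ F ↔ ∃ v, AbsU inn ε S v ∧ ε v = τ := by
    intro τ
    simp [hF, memU]
  have hεinj : Set.InjOn ε (U : Set V) := by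
    intro v hv w hw h
    have h1 := hε v (hUA v ((memU v).mp hv))
    have h2 := hε w (hUA w ((memU w).mp hw))
    rw [h, h2] at h1
    exact (Option.some.inj h1).symm
  have hFinv : ∀ τ ∈ F, ∀ a, out τ = some a → AbsU inn ε S a ∧ ε a = τ := by
    intro τ hτ a ha
    obtain ⟨v, hv, rfl⟩ := (memF τ).mp hτ
    have h1 := hε v (hUA v hv)
    rw [h1] at ha
    have h2 := Option.some.inj ha
    subst h2
    exact ⟨hv, rfl⟩
  refine ⟨F, ?_, ?_, ?_, ?_, ?_, ?_⟩
  · intro τ hτ
    obtain ⟨v, hv, rfl⟩ := (memF τ).mp hτ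
    exact ⟨v, hUA v hv, hε v (hUA v hv)⟩
  · intro τ hτ τ' hτ' h
    obtain ⟨v, hv, rfl⟩ := (memF τ).mp hτ
    obtain ⟨w, hw, rfl⟩ := (memF τ').mp hτ'
    rw [hε v (hUA v hv), hε w (hUA w hw)] at h
    rw [Option.some.inj h]
  · intro τ hτ τ' hτ' a ha hτ'a
    obtain ⟨haU, _⟩ := hFinv τ hτ a ha
    have haS : a ∉ S := (hinn τ' a hτ'a).2
    obtain ⟨w, hw, hw'⟩ := hUcase a haU haS
    apply hτ'
    rw [hinj τ' (ε w) a hτ'a hw']
    exact (memF _).mpr ⟨w, hw, rfl⟩
  · intro a ha
    by_cases haU : AbsU inn ε S a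
    · exact Or.inl ⟨ε a, (memF _).mpr ⟨a, haU, rfl⟩, hε a ha⟩
    · right
      have haS : a ∉ S := fun h => haU (hSU a h)
      obtain ⟨τ, hτ⟩ := hsur a ha haS
      refine ⟨τ, ?_, hτ⟩
      intro hτF
      obtain ⟨v, hv, rfl⟩ := (memF τ).mp hτF
      exact haU (AbsU.step hv hτ)
  · have h1 : F.card = U.card := Finset.card_image_of_injOn hεinj
    have hSU' : S ⊆ U := fun v hv => (memU v).mpr (hSU v hv)
    have h2 : ((F.filter fun τ => ¬ inn τ = none).image inn) = (U \ S).image some := by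
      ext o
      simp only [Finset.mem_image, Finset.mem_filter, Finset.mem_sdiff]
      constructor
      · rintro ⟨τ, ⟨hτF, hne⟩, rfl⟩
        obtain ⟨z, hz⟩ := Option.ne_none_iff_exists'.mp hne
        obtain ⟨v, hv, rfl⟩ := (memF τ).mp hτF
        exact ⟨z, ⟨(memU z).mpr (AbsU.step hv hz), (hinn _ _ hz).2⟩, hz.symm⟩
      · rintro ⟨z, ⟨hzU, hzS⟩, rfl⟩
        obtain ⟨w, hw, hw'⟩ := hUcase z ((memU z).mp hzU) hzS
        exact ⟨ε w, ⟨(memF _).mpr ⟨w, hw, rfl⟩, by simp [hw']⟩, hw'⟩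
    have h3 : ((F.filter fun τ => ¬ inn τ = none).image inn).card = (F.filter fun τ => ¬ inn τ = none).card := by
      apply Finset.card_image_of_injOn
      intro τ hτ τ' hτ' h
      have h4 : ¬ inn τ = none := (Finset.mem_filter.mp hτ).2
      obtain ⟨z, hz⟩ := Option.ne_none_iff_exists'.mp h4
      exact hinj τ τ' z hz (by rw [← hz]; exact h.symm)
    have h5 : ((U \ S).image some).card = (U \ S).card :=
      Finset.card_image_of_injective _ (Option.some_injective V)
    have h6 : (U \ S).card = U.card - S.card := Finset.card_sdiff_of_subset hSU'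
    have h7 := Finset.card_filter_add_card_filter_not (s := F) (fun τ => inn τ = none)
    have h8 : S.card ≤ U.card := Finset.card_le_card hSU'
    rw [← h3, h2, h5, h6, h1] at h7
    omega
  · intro τ v hτ hv
    by_cases hvU : AbsU inn ε S v
    · left
      obtain ⟨w, hw, hw'⟩ := hUcase v hvU hv
      exact ⟨ε w, (memF _).mpr ⟨w, hw, rfl⟩, hw'⟩
    · right
      intro hτF
      exact hvU (hFinv τ hτF v hτ).1

end Pool.Agent.Lib.MP_94420a_co
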