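import Pool.Agent.Lib.MP_94420a_co.Rain

/-!
# Edge-disjoint cycles through a common vertex

`cyc_cost`: `k` edge-disjoint cycles through `x` are a union of `k + 3 √k` edge-disjoint paths.

Proof.  First show by strong induction on `k = J.card` (for all `J`) that for every `c : ℕ` with
`k < (c + 1) ^ 2` and every `t ≤ 3`... The cleanest way: define `φ k = 3 * Nat.sqrt k` and prove the
auxiliary statement, for all `j` and all `J` with `J.card < (j + 1) ^ 2`: `PN (J.biUnion E) (J.card + 3 * j)`.
Induction on `j`.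
`j = 0`: `J = ∅`.
`j → j + 1` (so now `J.card < (j + 2) ^ 2`, goal `J.card + 3 * (j + 1)`):
inner statement: for `t ≤ 3` and all `J` with `J.card + (3 - t) * (j + 1) < (j + 2) ^ 2` we have
`PN (J.biUnion E) (J.card + 3 * j + t)`; by induction on `t` and strong induction on `J.card`:
if `J.card < (j + 1) ^ 2` use the hypothesis for `j` (and `PN_mono`); this covers `t = 0`, since
`(j + 2) ^ 2 - 3 * (j + 1) ≤ (j + 1) ^ 2`.  Otherwise `(j + 1) ^ 2 ≤ J.card` and `rain` with `L = j + 1`
applies: in the left alternative `J = P ∪ (J \ P)` with `J \ P` smaller (same `t`), in the right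
alternative `J \ P` has `j + 1` elements fewer and one uses `t - 1`; in both cases `PN_union`
(`P.biUnion E` and `(J \ P).biUnion E` are disjoint).
Finally take `j = Nat.sqrt J.card` (`Nat.lt_succ_sqrt'`).
`cyc_cost'`: `PN_biUnion` with `Cyc.pn_two`.
-/

namespace Pool.Agent.Lib.MP_94420a_co

variable {V : Type} [DecidableEq V]

private theorem ccost_split {ι : Type} [DecidableEq ι] (E : ι → Finset (Sym2 V)) (J P : Finset ι)
    (hP : P ⊆ J) (hd : ∀ i ∈ J, ∀ j ∈ J, i ≠ j → Disjoint (E i) (E j)) {k k' : ℕ}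
    (h : PN (P.biUnion E) k) (h' : PN ((J \ P).biUnion E) k') : PN (J.biUnion E) (k + k') := by
  have e : J.biUnion E = P.biUnion E ∪ (J \ P).biUnion E := by
    rw [← Finset.union_biUnion, Finset.union_sdiff_of_subset hP]
  rw [e]
  refine PN_union h h' ?_
  rw [Finset.disjoint_biUnion_left]
  intro i hi
  rw [Finset.disjoint_biUnion_right]
  intro j hj
  rw [Finset.mem_sdiff] at hj
  exact hd i (hP hi) j hj.1 fun hij => hj.2 (hij ▸ hi)

private theorem ccost_aux {ι : Type} [DecidableEq ι] (E : ι → Finset (Sym2 V)) (W : ι → Finset V)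
    (x : V) (j : ℕ) : ∀ (J : Finset ι), (∀ i ∈ J, Cyc (E i) (W i)) →
      (∀ i ∈ J, ∀ j ∈ J, i ≠ j → Disjoint (E i) (E j)) → (∀ i ∈ J, x ∈ W i) →
      J.card < (j + 1) ^ 2 → PN (J.biUnion E) (J.card + 3 * j) := by
  induction j with
  | zero =>
    intro J _ _ _ hJ
    have h0 : J = ∅ := by
      rw [← Finset.card_eq_zero]
      omega
    subst h0
    exact PN_empty _
  | succ j ih =>
    have inner : ∀ t : ℕ, ∀ N : ℕ, ∀ J : Finset ι, J.card = N → (∀ i ∈ J, Cyc (E i) (W i)) →
        (∀ i ∈ J, ∀ j ∈ J, i ≠ j → Disjoint (E i) (E j)) → (∀ i ∈ J, x ∈ W i) →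
        J.card < (j + 1) ^ 2 + t * (j + 1) → PN (J.biUnion E) (J.card + 3 * j + t) := by
      intro t
      induction t with
      | zero =>
        intro N J _ h1 h2 h3 h4
        exact ih J h1 h2 h3 (by omega)
      | succ t iht =>
        intro N
        induction N using Nat.strong_induction_on with
        | _ N ihN =>
          intro J hN h1 h2 h3 h4
          rcases Nat.lt_or_ge J.card ((j + 1) ^ 2) with hlt | hge
          · exact PN_mono (by omega) (ih J h1 h2 h3 hlt)
          · rcases rain E W (j + 1) J x h1 h2 h3 hge with ⟨P, hPJ, hPne, hP⟩ | ⟨P, hPJ, hPc, hP⟩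
            · have hc : (J \ P).card + P.card = J.card := Finset.card_sdiff_add_card_eq_card hPJ
              have hPpos : 0 < P.card := Finset.card_pos.2 hPne
              have h5 := ihN (J \ P).card (by omega) (J \ P) rfl
                (fun i hi => h1 i (Finset.mem_sdiff.1 hi).1)
                (fun i hi i' hi' => h2 i (Finset.mem_sdiff.1 hi).1 i' (Finset.mem_sdiff.1 hi').1)
                (fun i hi => h3 i (Finset.mem_sdiff.1 hi).1) (by omega)
              exact PN_mono (by omega) (ccost_split E J P hPJ h2 hP h5)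
            · have hc : (J \ P).card + P.card = J.card := Finset.card_sdiff_add_card_eq_card hPJ
              have e : (t + 1) * (j + 1) = t * (j + 1) + (j + 1) := Nat.succ_mul _ _
              have h5 := iht (J \ P).card (J \ P) rfl
                (fun i hi => h1 i (Finset.mem_sdiff.1 hi).1)
                (fun i hi i' hi' => h2 i (Finset.mem_sdiff.1 hi).1 i' (Finset.mem_sdiff.1 hi').1)
                (fun i hi => h3 i (Finset.mem_sdiff.1 hi).1) (by omega)
              exact PN_mono (by omega) (ccost_split E J P hPJ h2 hP h5)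
    intro J h1 h2 h3 h4
    have e : (j + 1 + 1) ^ 2 ≤ (j + 1) ^ 2 + 3 * (j + 1) := by
      nlinarith
    have h5 := inner 3 J.card J rfl h1 h2 h3 (lt_of_lt_of_le h4 e)
    exact PN_mono (by omega) h5

theorem cyc_cost {ι : Type} [DecidableEq ι] (E : ι → Finset (Sym2 V)) (W : ι → Finset V)
    (J : Finset ι) (x : V) (hc : ∀ i ∈ J, Cyc (E i) (W i))
    (hd : ∀ i ∈ J, ∀ j ∈ J, i ≠ j → Disjoint (E i) (E j)) (hx : ∀ i ∈ J, x ∈ W i) :
    PN (J.biUnion E) (J.card + 3 * Nat.sqrt J.card) := by
  exact ccost_aux E W x (Nat.sqrt J.card) J hc hd hx (Nat.lt_succ_sqrt' J.card)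

theorem cyc_cost' {ι : Type} [DecidableEq ι] (E : ι → Finset (Sym2 V)) (W : ι → Finset V)
    (J : Finset ι) (x : V) (hc : ∀ i ∈ J, Cyc (E i) (W i))
    (hd : ∀ i ∈ J, ∀ j ∈ J, i ≠ j → Disjoint (E i) (E j)) (hx : ∀ i ∈ J, x ∈ W i) :
    PN (J.biUnion E) (J.card + J.card) := by
  have h := PN_biUnion J E (fun _ => 2) hd fun i hi => (hc i hi).pn_two (hx i hi)
  rw [Finset.sum_const, smul_eq_mul] at h
  exact PN_mono (by omega) h

end Pool.Agent.Lib.MP_94420a_co
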