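import Pool.Agent.Lib.MP_94420a_co.PWA

/-!
# Converting cycles into paths at no cost

All cycles `i ∈ J` contain `v`, and every `i ∈ J` has a neighbour `a i` of `v` (with `NB`) that is
not on the cycle `n i ∈ J`.  Iterating `n : J → J` (a function on the finite type `↥J`) there is a
nonempty set `P ⊆ J` with `n` bijective on `P` (take the periodic points of `n`:
`Function.periodicPts`, `Function.bijOn_periodicPts`, nonempty for a finite nonempty type; or take the
image of a large iterate).  For `i ∈ P` the set `(E (n i)).erase s(v, a (n i))` with the new edge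
`s(v, a i)` is a path: it is `PW (..) (W (n i)) (a (n i)) v`, and `a i ∉ W (n i)` (`PW.extend`), so
`PN (insert s(v, a i) ((E (n i)).erase s(v, a (n i)))) 1`.  These sets are pairwise disjoint for
distinct `i ∈ P` (`n` is injective on `P`, `s(v, a i) ∈ E i`, and `s(v, a i) = s(v, a j)` only for
`i = j` by disjointness of `E i`, `E j`; note that for `n i = j` the edge `s(v, a i) ∈ E i` is not in
`E j`), and their union is `P.biUnion E` because `n` is surjective on `P`.  `PN_of_finset`.
-/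

namespace Pool.Agent.Lib.MP_94420a_co

variable {V : Type} [DecidableEq V]

/-- a self map of a finite nonempty set is bijective on a nonempty subset -/
private theorem Conv_core {ι : Type} [DecidableEq ι] (J : Finset ι) (hJ : J.Nonempty) (n : ι → ι)
    (hn : ∀ i ∈ J, n i ∈ J) : ∃ P ⊆ J, P.Nonempty ∧ P.image n = P := by
  have hne : (J.powerset.filter fun P => P.Nonempty ∧ P.image n ⊆ P).Nonempty :=
    ⟨J, Finset.mem_filter.mpr ⟨Finset.mem_powerset_self J, hJ,
      Finset.image_subset_iff.mpr hn⟩⟩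
  obtain ⟨P, hP, hmin⟩ := Finset.exists_min_image _ Finset.card hne
  obtain ⟨hPJ, hPne, hPn⟩ := Finset.mem_filter.mp hP
  have hPJ' : P ⊆ J := Finset.mem_powerset.mp hPJ
  refine ⟨P, hPJ', hPne, Finset.eq_of_subset_of_card_le hPn ?_⟩
  refine hmin _ (Finset.mem_filter.mpr ⟨Finset.mem_powerset.mpr (hPn.trans hPJ'),
    hPne.image n, Finset.image_subset_image hPn⟩)

theorem conv {ι : Type} [DecidableEq ι] (J : Finset ι) (hJ : J.Nonempty)
    (E : ι → Finset (Sym2 V)) (W : ι → Finset V)
    (hd : ∀ i ∈ J, ∀ j ∈ J, i ≠ j → Disjoint (E i) (E j)) (v : V)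
    (hns : ∀ i ∈ J, ∃ a, NB (E i) (W i) v a ∧ ∃ j ∈ J, a ∉ W j) :
    ∃ P ⊆ J, P.Nonempty ∧ PN (P.biUnion E) P.card := by
  have hv : Nonempty V := ⟨v⟩
  have hι : Nonempty ι := ⟨hJ.choose⟩
  choose! a ha using hns
  have hns2 : ∀ i, i ∈ J → ∃ j, j ∈ J ∧ a i ∉ W j := fun i hi => (ha i hi).2
  choose! n hn using hns2
  obtain ⟨P, hPJ, hPne, hPn⟩ := Conv_core J hJ n (fun i hi => (hn i hi).1)
  have hinj : Set.InjOn n P := Finset.injOn_of_card_image_eq (by rw [hPn])
  have hmap : ∀ i ∈ P, n i ∈ P := fun i hi => by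
    have := Finset.mem_image_of_mem n hi
    rwa [hPn] at this
  have hedge : ∀ i ∈ P, s(v, a i) ∈ E i := fun i hi => (ha i (hPJ hi)).1.1
  have heq : ∀ i ∈ P, ∀ j ∈ P, ∀ e, e ∈ E i → e ∈ E j → i = j := by
    intro i hi j hj e h1 h2
    by_contra hij
    exact Finset.disjoint_left.mp (hd i (hPJ hi) j (hPJ hj) hij) h1 h2
  refine ⟨P, hPJ, hPne, ?_⟩
  have hpn : ∀ i ∈ P, PN (insert s(v, a i) ((E (n i)).erase s(v, a (n i)))) 1 := by
    intro i hi
    exact (((ha (n i) (hPJ (hmap i hi))).1.2).extend (hn i (hPJ hi)).2).pn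
  have hdis : ∀ i ∈ P, ∀ j ∈ P, i ≠ j →
      Disjoint (insert s(v, a i) ((E (n i)).erase s(v, a (n i))))
        (insert s(v, a j) ((E (n j)).erase s(v, a (n j)))) := by
    intro i hi j hj hij
    rw [Finset.disjoint_left]
    intro e h1 h2
    rcases Finset.mem_insert.mp h1 with h1 | h1 <;> rcases Finset.mem_insert.mp h2 with h2 | h2
    · exact hij (heq i hi j hj e (h1 ▸ hedge i hi) (h2 ▸ hedge j hj))
    · obtain ⟨h3, h4⟩ := Finset.mem_erase.mp h2
      have h5 := heq i hi (n j) (hmap j hj) e (h1 ▸ hedge i hi) h4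
      exact h3 (by rw [h1, ← h5])
    · obtain ⟨h3, h4⟩ := Finset.mem_erase.mp h1
      have h5 := heq j hj (n i) (hmap i hi) e (h2 ▸ hedge j hj) h4
      exact h3 (by rw [h2, ← h5])
    · have h5 := heq (n i) (hmap i hi) (n j) (hmap j hj) e (Finset.mem_erase.mp h1).2
        (Finset.mem_erase.mp h2).2
      exact hij (hinj hi hj h5)
  have hun : P.biUnion E = P.biUnion fun i => insert s(v, a i) ((E (n i)).erase s(v, a (n i))) := by
    ext e
    rw [Finset.mem_biUnion, Finset.mem_biUnion]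
    constructor
    · rintro ⟨i, hi, he⟩
      by_cases h1 : e = s(v, a i)
      · exact ⟨i, hi, Finset.mem_insert.mpr (Or.inl h1)⟩
      · have h2 : i ∈ P.image n := by rw [hPn]; exact hi
        obtain ⟨j, hj, hji⟩ := Finset.mem_image.mp h2
        refine ⟨j, hj, Finset.mem_insert.mpr (Or.inr (Finset.mem_erase.mpr ⟨?_, ?_⟩))⟩
        · rw [hji]; exact h1
        · rw [hji]; exact he
    · rintro ⟨i, hi, he⟩
      rcases Finset.mem_insert.mp he with h1 | h1
      · exact ⟨i, hi, h1 ▸ hedge i hi⟩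
      · exact ⟨n i, hmap i hi, (Finset.mem_erase.mp h1).2⟩
  rw [hun]
  exact PN_of_finset P _ hdis hpn

end Pool.Agent.Lib.MP_94420a_co
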