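import Pool.Agent.Lib.MP_94420a_co.PWA

/-!
# The cycle traced by a list

Proof of `Cyc_of_list`.  Put `F = le (x :: (m ++ [x]))` and `W = insert x m.toFinset`.
* `v = x`: write `m = a :: m'` and `m = m'' ++ [a']` (`a`, `a'` the first and last vertex, `a ≠ a'`
  because `2 ≤ m.length` and `m` is nodup).  The edge `s(x, a)`: `F = insert s(x, a) (le (m ++ [x]))`,
  and `s(x, a) ∉ le (m ++ [x])` (its only edge at `x` is `s(a', x)`), so `F.erase s(x, a) = le (m ++ [x])`,
  and the list `m ++ [x]` goes from `a` to `x`.  The edge `s(x, a')`: by symmetry (`F.erase s(x, a') =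
  le (x :: m)`, take the reversed list, from `a'` to `x`).
* `v ∈ m`: `m = m₁ ++ v :: m₂`.  The cyclic list is `x, m₁, v, m₂`.  One neighbour `a` is the first
  vertex of `m₂ ++ [x]`: the list `m₂ ++ x :: m₁ ++ [v]` goes from `a` to `v`, is nodup with vertex set
  `W`, and its edges are `F.erase s(v, a)`.  The other neighbour `a'` is the last vertex of `x :: m₁`:
  the list `(x :: m₁).reverse ++ m₂.reverse ++ [v]` goes from `a'` to `v`, edges `F.erase s(v, a')`.
  `a ≠ a'`: if both were equal then (all vertices of `m₂ ++ x :: m₁` being distinct) this list has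
  length `1`, so `m₁ = m₂ = []`, contradiction with `2 ≤ m.length`.
A useful general step: a nodup list `l` of length at least `3`, with last vertex `v`, first vertex `a`:
then `s(v, a) ∉ le l`.  And `le` of a cyclic list does not depend on the starting point:
`le (l₁ ++ l₂ ++ [first vertex of l₁])` and rotation; `le_append`, `le_concat`, `le_cons_head`.
Perhaps easier: first prove the statement at the first vertex of a cyclic list (`Cyc` at `x`), and
then the rotation lemma `le (x :: (m₁ ++ v :: m₂ ++ [x])) = le (v :: (m₂ ++ x :: m₁ ++ [v]))`.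
-/

namespace Pool.Agent.Lib.MP_94420a_co

variable {V : Type} [DecidableEq V]

/-- A closing edge is new. -/
private theorem close_notMem {l : List V} (hl : l.Nodup) (h3 : 3 ≤ l.length) {v a : V}
    (hv : l.getLast? = some v) (ha : l.head? = some a) : s(v, a) ∉ le l := by
  match l, hl, h3, hv, ha with
  | b :: c :: d :: t, hl, _, hv, ha =>
    obtain rfl : b = a := by simpa using ha
    intro h
    rw [List.getLast?_cons_cons] at hv
    have hvm : v ∈ c :: d :: t := mem_of_getLast? hv
    have hb : b ∉ c :: d :: t := (List.nodup_cons.1 hl).1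
    rw [Sym2.eq_swap, mem_le_cons hb] at h
    obtain rfl : c = v := by simpa using h
    rw [List.getLast?_cons_cons] at hv
    exact (List.nodup_cons.1 (List.nodup_cons.1 hl).2).1 (mem_of_getLast? hv)

/-- The statement at the first vertex. -/
private theorem nb_first {v : V} {l : List V} (hl : (v :: l).Nodup) (h2 : 2 ≤ l.length) :
    ∃ a a' : V, a ≠ a' ∧ NB (le (v :: (l ++ [v]))) (insert v l.toFinset) v a ∧
      NB (le (v :: (l ++ [v]))) (insert v l.toFinset) v a' := by
  have hne : l ≠ [] := by
    rintro rfl
    simp at h2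
  obtain ⟨a, ha⟩ : ∃ a, l.head? = some a := ⟨l.head hne, List.head?_eq_some_head hne⟩
  obtain ⟨a', ha'⟩ : ∃ a', l.getLast? = some a' :=
    ⟨l.getLast hne, List.getLast?_eq_some_getLast hne⟩
  have hvl : v ∉ l := (List.nodup_cons.1 hl).1
  have hln : l.Nodup := (List.nodup_cons.1 hl).2
  have hl1 : (l ++ [v]).Nodup := by
    rw [List.nodup_append]
    refine ⟨hln, List.nodup_singleton v, ?_⟩
    intro y hy z hz
    rw [List.mem_singleton] at hz
    rintro rfl
    exact hvl (hz ▸ hy)
  have hh1 : (l ++ [v]).head? = some a := by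
    rw [List.head?_append, ha, Option.some_or]
  have hg1 : (l ++ [v]).getLast? = some v := by simp
  have e1 : le (v :: (l ++ [v])) = insert s(v, a) (le (l ++ [v])) := le_cons_head hh1 v
  have hg2 : (v :: l).getLast? = some a' := by
    rw [List.getLast?_cons, ha']
    rfl
  have e2 : le (v :: (l ++ [v])) = insert s(v, a') (le (v :: l)) := by
    rw [← List.cons_append, le_concat hg2, Sym2.eq_swap]
  have n1 : s(v, a) ∉ le (l ++ [v]) := by
    apply close_notMem hl1 _ hg1 hh1
    simp only [List.length_append, List.length_singleton]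
    omega
  have n2 : s(v, a') ∉ le (v :: l) := by
    rw [Sym2.eq_swap]
    apply close_notMem hl _ hg2 (by simp)
    simp only [List.length_cons]
    omega
  refine ⟨a, a', ?_, ⟨?_, ?_⟩, ⟨?_, ?_⟩⟩
  · rintro rfl
    match l, h2, ha, ha', hln with
    | b :: c :: t, _, ha, ha', hln =>
      obtain rfl : b = a := by simpa using ha
      rw [List.getLast?_cons_cons] at ha'
      exact (List.nodup_cons.1 hln).1 (mem_of_getLast? ha')
  · rw [e1]
    exact Finset.mem_insert_self _ _
  · rw [e1, Finset.erase_insert n1]
    refine ⟨l ++ [v], hl1, hh1, hg1, ?_, rfl⟩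
    ext y
    simp only [List.mem_toFinset, List.mem_append, List.mem_singleton, Finset.mem_insert]
    tauto
  · rw [e2]
    exact Finset.mem_insert_self _ _
  · rw [e2, Finset.erase_insert n2]
    refine ⟨(v :: l).reverse, List.nodup_reverse.2 hl, ?_, ?_, ?_, le_reverse _⟩
    · rw [List.head?_reverse, hg2]
    · rw [List.getLast?_reverse, List.head?_cons]
    · ext y
      simp

theorem Cyc_of_list {x : V} {m : List V} (hm : m.Nodup) (hx : x ∉ m) (h2 : 2 ≤ m.length) :
    Cyc (le (x :: (m ++ [x]))) (insert x m.toFinset) := by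
  intro v hv
  rw [Finset.mem_insert, List.mem_toFinset] at hv
  by_cases hvx : v = x
  · subst hvx
    exact nb_first (List.nodup_cons.2 ⟨hx, hm⟩) h2
  · have hv' : v ∈ m := by tauto
    obtain ⟨m₁, m₂, rfl⟩ := List.append_of_mem hv'
    have key := nb_first (v := v) (l := m₂ ++ x :: m₁) ?_ ?_
    · have e1 : le (v :: ((m₂ ++ x :: m₁) ++ [v])) = le (x :: ((m₁ ++ v :: m₂) ++ [x])) := by
        have h1 : v :: ((m₂ ++ x :: m₁) ++ [v]) = (v :: m₂) ++ x :: (m₁ ++ [v]) := by simp
        have h2' : x :: ((m₁ ++ v :: m₂) ++ [x]) = (x :: m₁) ++ v :: (m₂ ++ [x]) := by simp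
        rw [h1, h2', le_append_cons, le_append_cons (x :: m₁), Finset.union_comm]
        simp
      have e2 : insert v (m₂ ++ x :: m₁).toFinset = insert x (m₁ ++ v :: m₂).toFinset := by
        ext y
        simp only [Finset.mem_insert, List.mem_toFinset, List.mem_append, List.mem_cons]
        tauto
      rw [e1, e2] at key
      exact key
    · have hp : (v :: (m₂ ++ x :: m₁)).Perm (x :: (m₁ ++ v :: m₂)) := by
        have h1 : (v :: (m₂ ++ x :: m₁)).Perm (x :: (v :: m₂ ++ m₁)) := by
          rw [← List.cons_append]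
          exact List.perm_middle
        refine h1.trans (List.Perm.cons x ?_)
        exact List.perm_append_comm
      exact hp.nodup_iff.2 (List.nodup_cons.2 ⟨hx, hm⟩)
    · simp only [List.length_append, List.length_cons] at h2 ⊢
      omega

end Pool.Agent.Lib.MP_94420a_co
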