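import Mathlib

/-!
# Definitions

Graphs are handled as finite sets of edges `E : Finset (Sym2 V)`; paths are lists of distinct
vertices, `le l` is the set of edges of the walk traced by the list `l`.
-/

namespace Pool.Agent.Lib.MP_94420a_co

variable {V : Type} [DecidableEq V]

/-- The edges of the walk traced by a list of vertices. -/
def le : List V → Finset (Sym2 V)
  | [] => ∅
  | [_] => ∅
  | a :: b :: t => insert s(a, b) (le (b :: t))

omit [DecidableEq V] in
/-- `v` is the first or the last vertex of `l`. -/
def IsEnd (v : V) (l : List V) : Prop := l.head? = some v ∨ l.getLast? = some v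

/-- A family of `k` edge-disjoint paths (possibly empty or trivial) with union `F`. -/
def PF (F : Finset (Sym2 V)) {k : ℕ} (f : Fin k → List V) : Prop :=
  (∀ i, (f i).Nodup) ∧ (∀ i j, i ≠ j → Disjoint (le (f i)) (le (f j))) ∧
    Finset.univ.biUnion (fun i => le (f i)) = F

/-- `F` is the union of `k` edge-disjoint paths. -/
def PN (F : Finset (Sym2 V)) (k : ℕ) : Prop := ∃ f : Fin k → List V, PF F f

/-- `E` is the edge set and `W` the vertex set of a path from `a` to `b`. -/
def PW (E : Finset (Sym2 V)) (W : Finset V) (a b : V) : Prop :=
  ∃ l : List V, l.Nodup ∧ l.head? = some a ∧ l.getLast? = some b ∧ l.toFinset = W ∧ le l = E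

/-- `va` is an edge of `E` whose deletion leaves a path from `a` to `v` with vertex set `W`. -/
def NB (E : Finset (Sym2 V)) (W : Finset V) (v a : V) : Prop :=
  s(v, a) ∈ E ∧ PW (E.erase s(v, a)) W a v

/-- `E` is the edge set and `W` the vertex set of a cycle: at every vertex `v` of `W` there are two
edges of `E` whose deletion leaves a path with vertex set `W`. -/
def Cyc (E : Finset (Sym2 V)) (W : Finset V) : Prop :=
  ∀ v ∈ W, ∃ a a' : V, a ≠ a' ∧ NB E W v a ∧ NB E W v a'

/-- The star with centre `x` and leaves `S`. -/
def st (x : V) (S : Finset V) : Finset (Sym2 V) := S.image fun a => s(x, a)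

/-- Degree of a vertex in a set of edges. -/
def dg (E : Finset (Sym2 V)) (v : V) : ℕ := (E.filter fun e => v ∈ e).card

omit [DecidableEq V] in
/-- No loops. -/
def Ll (E : Finset (Sym2 V)) : Prop := ∀ e ∈ E, ¬e.IsDiag

section
variable [Fintype V]

/-- Neighbours of `x`. -/
def nb (E : Finset (Sym2 V)) (x : V) : Finset V := Finset.univ.filter fun a => s(x, a) ∈ E

/-- Vertices of even positive degree. -/
def ev (E : Finset (Sym2 V)) : Finset V := Finset.univ.filter fun v => Even (dg E v) ∧ dg E v ≠ 0

/-- Vertices of odd degree. -/
def od (E : Finset (Sym2 V)) : Finset V := Finset.univ.filter fun v => Odd (dg E v)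

end

/-- The part of `l` before `x`. -/
def bf (x : V) (l : List V) : List V := l.takeWhile fun y => decide (y ≠ x)

/-- The part of `l` after `x`. -/
def af (x : V) (l : List V) : List V := (l.dropWhile fun y => decide (y ≠ x)).tail

/-- Outer end of the part of the path `l` on the side `b` of `x` (`false`: before, `true`: after);
if `x` is not on `l`: the first resp. last vertex of `l`. -/
def out (x : V) (l : List V) (b : Bool) : Option V :=
  if x ∈ l then (if b then (af x l).getLast? else (bf x l).head?)
  else (if b then l.getLast? else l.head?)

/-- The neighbour of `x` on the side `b` of the path `l`. -/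
def inn (x : V) (l : List V) (b : Bool) : Option V :=
  if x ∈ l then (if b then (af x l).head? else (bf x l).getLast?) else none

/-- The path `l` modified at `x`: on the sides `p` (before) and `q` (after) that are `true` the
edge at `x` is replaced by the edge from `x` to the outer end; if `x` is not on `l`, the edge from
`x` to the outer end is added. -/
def md (x : V) (l : List V) (p q : Bool) : List V :=
  if x ∈ l then (if p then (bf x l).reverse else bf x l) ++
    x :: (if q then (af x l).reverse else af x l)
  else (if p then [x] else []) ++ (l ++ (if q then [x] else []))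

end Pool.Agent.Lib.MP_94420a_co
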