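import Pool.Agent.Lib.MP_94420a_co.LA

/-!
# Degrees and stars

`(E.filter (v ∈ ·))` for a loopless `E` is the image of `nb E v` under `a ↦ s(v, a)` (injective).
-/

namespace Pool.Agent.Lib.MP_94420a_co

variable {V : Type} [DecidableEq V] [Fintype V]

theorem mem_nb {E : Finset (Sym2 V)} {x a : V} : a ∈ nb E x ↔ s(x, a) ∈ E := by
  simp [nb]

theorem mem_ev {E : Finset (Sym2 V)} {x : V} : x ∈ ev E ↔ Even (dg E x) ∧ dg E x ≠ 0 := by
  simp [ev]

theorem mem_od {E : Finset (Sym2 V)} {x : V} : x ∈ od E ↔ Odd (dg E x) := by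
  simp [od]

theorem mem_st {x : V} {S : Finset V} {e : Sym2 V} : e ∈ st x S ↔ ∃ a ∈ S, e = s(x, a) := by
  simp only [st, Finset.mem_image]
  constructor
  · rintro ⟨a, ha, rfl⟩
    exact ⟨a, ha, rfl⟩
  · rintro ⟨a, ha, rfl⟩
    exact ⟨a, ha, rfl⟩

theorem not_mem_nb_self {E : Finset (Sym2 V)} (hE : Ll E) (x : V) : x ∉ nb E x := by
  intro h
  rw [mem_nb] at h
  exact hE _ h (by simp)

private theorem deg_inj (x : V) : Function.Injective fun a : V => s(x, a) := by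
  intro a b h
  rcases Sym2.eq_iff.1 h with ⟨_, h2⟩ | ⟨h1, h2⟩
  · exact h2
  · exact h2.trans h1

private theorem deg_filter_eq {E : Finset (Sym2 V)} (x : V) :
    (E.filter fun e => x ∈ e) = (nb E x).image fun a => s(x, a) := by
  ext e
  simp only [Finset.mem_filter, Finset.mem_image, mem_nb]
  constructor
  · rintro ⟨he, hx⟩
    obtain ⟨b, rfl⟩ := Sym2.mem_iff_exists.1 hx
    exact ⟨b, he, rfl⟩
  · rintro ⟨a, ha, rfl⟩
    exact ⟨ha, by simp⟩

private theorem deg_card_nb' {E : Finset (Sym2 V)} (x : V) : (nb E x).card = dg E x := by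
  rw [dg, deg_filter_eq, Finset.card_image_of_injective _ (deg_inj x)]

theorem card_nb {E : Finset (Sym2 V)} (hE : Ll E) (x : V) : (nb E x).card = dg E x := by
  have _ := hE
  exact deg_card_nb' x

theorem mem_nb_comm {E : Finset (Sym2 V)} {x a : V} (h : a ∈ nb E x) : x ∈ nb E a := by
  rw [mem_nb] at h ⊢
  rwa [Sym2.eq_swap]

theorem dg_ne_zero {E : Finset (Sym2 V)} {x a : V} (h : a ∈ nb E x) : dg E x ≠ 0 ∧ dg E a ≠ 0 := by
  constructor
  · rw [← deg_card_nb']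
    exact (Finset.card_pos.2 ⟨a, h⟩).ne'
  · rw [← deg_card_nb']
    exact (Finset.card_pos.2 ⟨x, mem_nb_comm h⟩).ne'

theorem Ll_sd {E : Finset (Sym2 V)} (hE : Ll E) (F : Finset (Sym2 V)) : Ll (E \ F) := by
  intro e he
  exact hE e (Finset.mem_sdiff.1 he).1

private theorem deg_st_sub {E : Finset (Sym2 V)} {x : V} {S : Finset V} (hS : S ⊆ nb E x) :
    st x S ⊆ E := by
  intro e he
  obtain ⟨a, ha, rfl⟩ := mem_st.1 he
  exact mem_nb.1 (hS ha)

theorem sd_union_st {E : Finset (Sym2 V)} {x : V} {S : Finset V} (hS : S ⊆ nb E x) :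
    E \ st x S ∪ st x S = E :=
  Finset.sdiff_union_of_subset (deg_st_sub hS)

theorem card_sd_st {E : Finset (Sym2 V)} {x : V} {S : Finset V} (hS : S ⊆ nb E x)
    (hne : S.Nonempty) : (E \ st x S).card < E.card := by
  obtain ⟨a, ha⟩ := hne
  apply Finset.card_lt_card
  refine Finset.ssubset_iff_subset_ne.2 ⟨Finset.sdiff_subset, ?_⟩
  intro h
  have h1 : s(x, a) ∈ E := mem_nb.1 (hS ha)
  rw [← h] at h1
  exact (Finset.mem_sdiff.1 h1).2 (mem_st.2 ⟨a, ha, rfl⟩)

private theorem deg_nb_sd_center {E : Finset (Sym2 V)} {x : V} {S : Finset V} :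
    nb (E \ st x S) x = nb E x \ S := by
  ext a
  simp only [mem_nb, Finset.mem_sdiff, mem_st]
  constructor
  · rintro ⟨h1, h2⟩
    exact ⟨h1, fun h3 => h2 ⟨a, h3, rfl⟩⟩
  · rintro ⟨h1, h2⟩
    refine ⟨h1, ?_⟩
    rintro ⟨b, hb, hab⟩
    have := deg_inj x hab
    subst this
    exact h2 hb

theorem dg_sd_other {E : Finset (Sym2 V)} {x v : V} {S : Finset V} (h1 : v ≠ x) (h2 : v ∉ S) :
    dg (E \ st x S) v = dg E v := by
  rw [← deg_card_nb', ← deg_card_nb']
  congr 1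
  ext a
  simp only [mem_nb, Finset.mem_sdiff, mem_st]
  constructor
  · exact fun h => h.1
  · intro h
    refine ⟨h, ?_⟩
    rintro ⟨b, hb, hab⟩
    rw [Sym2.eq_iff] at hab
    rcases hab with ⟨h3, _⟩ | ⟨h3, _⟩
    · exact h1 h3
    · exact h2 (h3 ▸ hb)

theorem dg_sd_leaf {E : Finset (Sym2 V)} {x v : V} {S : Finset V} (hS : S ⊆ nb E x) (hx : x ∉ S)
    (h2 : v ∈ S) : dg (E \ st x S) v + 1 = dg E v := by
  have hvx : v ≠ x := fun h => hx (h ▸ h2)
  have hmem : x ∈ nb E v := mem_nb_comm (hS h2)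
  have key : nb (E \ st x S) v = (nb E v).erase x := by
    ext a
    simp only [mem_nb, Finset.mem_sdiff, mem_st, Finset.mem_erase]
    constructor
    · rintro ⟨h3, h4⟩
      refine ⟨?_, h3⟩
      rintro rfl
      exact h4 ⟨v, h2, Sym2.eq_swap⟩
    · rintro ⟨h3, h4⟩
      refine ⟨h4, ?_⟩
      rintro ⟨b, hb, hab⟩
      rw [Sym2.eq_iff] at hab
      rcases hab with ⟨h5, _⟩ | ⟨_, h5⟩
      · exact hvx h5
      · exact h3 h5
  rw [← deg_card_nb', ← deg_card_nb', key]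
  exact Finset.card_erase_add_one hmem

theorem dg_sd_center {E : Finset (Sym2 V)} {x : V} {S : Finset V} (hS : S ⊆ nb E x) (hx : x ∉ S) :
    dg (E \ st x S) x + S.card = dg E x := by
  have _ := hx
  rw [← deg_card_nb', ← deg_card_nb', deg_nb_sd_center]
  exact Finset.card_sdiff_add_card_eq_card hS

end Pool.Agent.Lib.MP_94420a_co
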