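import Pool.Agent.Lib.MP_94420a_co.Deg

/-!
# The even vertices after removing a star

`E' = E \ st x S`, `S = nb E x ∩ ev E`.  The vertices of `S` are odd in `E'` (`dg_sd_leaf`), the vertices
outside `S ∪ {x}` keep their degree.  So `ev E' ⊆ (ev E \ S) ∪ {x}`.
`ev_sd_card`: if `S.card` is even then `x ∈ ev E'` implies `x ∈ ev E` (`dg_sd_center`; `dg E x ≠ 0` as
`dg E' x ≠ 0`), so `ev E' ⊆ ev E \ S` and `(ev E').card + S.card ≤ (ev E).card`.  If `S.card` is odd, then
`(ev E').card + S.card ≤ (ev E).card + 1` and `2 * c ≤ S.card` implies `2 * c + 1 ≤ S.card`.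
`exists_many`: `∑ v ∈ T, dg E v = ∑ v ∈ T, (nb E v).card = ∑ w, (nb E w ∩ T).card` (double counting,
`mem_nb_comm`), so `d * T.card ≤ ∑ w, (nb E w ∩ T).card`, and some `w` has
`d * T.card ≤ Fintype.card V * (nb E w ∩ T).card` (`Finset.exists_le_of_sum_le` or by contradiction with
`Finset.sum_lt_sum_of_nonempty`).
-/

namespace Pool.Agent.Lib.MP_94420a_co

variable {V : Type} [DecidableEq V] [Fintype V]

theorem ev_sd_subset {E : Finset (Sym2 V)} (hE : Ll E) (x : V) :
    ev (E \ st x (nb E x ∩ ev E)) ⊆ insert x (ev E \ (nb E x ∩ ev E)) := by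
  intro v hv
  rw [Finset.mem_insert]
  by_cases hvx : v = x
  · exact Or.inl hvx
  right
  have hS : nb E x ∩ ev E ⊆ nb E x := Finset.inter_subset_left
  have hx : x ∉ nb E x ∩ ev E := fun h => not_mem_nb_self hE x (Finset.mem_inter.1 h).1
  obtain ⟨h1, h2⟩ := mem_ev.1 hv
  by_cases hvS : v ∈ nb E x ∩ ev E
  · exfalso
    have h3 := dg_sd_leaf hS hx hvS
    have h4 := (mem_ev.1 (Finset.mem_inter.1 hvS).2).1
    rw [← h3] at h4
    exact (Nat.not_even_iff_odd.2 (Even.add_one h1)) h4
  · rw [dg_sd_other hvx hvS] at h1 h2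
    exact Finset.mem_sdiff.2 ⟨mem_ev.2 ⟨h1, h2⟩, hvS⟩

theorem ev_sd_card {E : Finset (Sym2 V)} (hE : Ll E) (x : V) {c : ℕ}
    (hc : 2 * c ≤ (nb E x ∩ ev E).card) :
    (ev (E \ st x (nb E x ∩ ev E))).card + 2 * c ≤ (ev E).card := by
  set S := nb E x ∩ ev E with hSdef
  have hS : S ⊆ nb E x := Finset.inter_subset_left
  have hS' : S ⊆ ev E := Finset.inter_subset_right
  have hx : x ∉ S := fun h => not_mem_nb_self hE x (Finset.mem_inter.1 h).1
  have hsub : ev (E \ st x S) ⊆ insert x (ev E \ S) := ev_sd_subset hE x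
  have hcard : (ev E \ S).card = (ev E).card - S.card := Finset.card_sdiff_of_subset hS'
  have hle : S.card ≤ (ev E).card := Finset.card_le_card hS'
  have hctr := dg_sd_center hS hx
  rcases Nat.even_or_odd S.card with he | ho
  · have hsub2 : ev (E \ st x S) ⊆ ev E \ S := by
      intro v hv
      rcases Finset.mem_insert.1 (hsub hv) with h | h
      · subst h
        obtain ⟨h1, h2⟩ := mem_ev.1 hv
        refine Finset.mem_sdiff.2 ⟨mem_ev.2 ⟨?_, ?_⟩, hx⟩
        · rw [← hctr]
          exact h1.add he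
        · omega
      · exact h
    have := Finset.card_le_card hsub2
    omega
  · have h1 := Finset.card_le_card hsub
    have h2 := Finset.card_insert_le x (ev E \ S)
    obtain ⟨k, hk⟩ := ho
    omega

theorem exists_many [Nonempty V] {E : Finset (Sym2 V)} (hE : Ll E) (T : Finset V) (d : ℕ)
    (hT : ∀ v ∈ T, d ≤ dg E v) :
    ∃ w, d * T.card ≤ Fintype.card V * (nb E w ∩ T).card := by
  have h1 : ∑ v ∈ T, dg E v = ∑ w : V, (nb E w ∩ T).card := by
    have h2 : ∀ v ∈ T, dg E v = ∑ w : V, if v ∈ nb E w then 1 else 0 := by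
      intro v _
      rw [← card_nb hE v, Finset.card_eq_sum_ones, ← Finset.sum_filter]
      refine Finset.sum_congr ?_ (fun _ _ => rfl)
      ext w
      rw [Finset.mem_filter]
      exact ⟨fun h => ⟨Finset.mem_univ _, mem_nb_comm h⟩, fun h => mem_nb_comm h.2⟩
    rw [Finset.sum_congr rfl h2, Finset.sum_comm]
    refine Finset.sum_congr rfl fun w _ => ?_
    rw [Finset.card_eq_sum_ones, ← Finset.sum_filter]
    refine Finset.sum_congr ?_ (fun _ _ => rfl)
    ext v
    rw [Finset.mem_filter, Finset.mem_inter, and_comm]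
  by_contra hcon
  push Not at hcon
  have h3 : ∑ w : V, Fintype.card V * (nb E w ∩ T).card < ∑ _w : V, d * T.card :=
    Finset.sum_lt_sum_of_nonempty Finset.univ_nonempty fun w _ => hcon w
  rw [← Finset.mul_sum, ← h1, Finset.sum_const, Finset.card_univ, smul_eq_mul] at h3
  have h4 : T.card * d ≤ ∑ v ∈ T, dg E v := by
    have := Finset.card_nsmul_le_sum T (fun v => dg E v) d hT
    simpa using this
  have h5 := Nat.mul_le_mul_left (Fintype.card V) h4
  rw [mul_comm T.card d] at h5
  omega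

end Pool.Agent.Lib.MP_94420a_co
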