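import Pool.Agent.Lib.MP_94420a_co.LA

/-!
# The predicate `PN`

`PN_mono`: pad the family with empty lists (`fun i : Fin k' => if h : i.1 < k then f ⟨i.1, h⟩ else []`).
`PN_union`: `Fin.append f f'` or `Fin.addCases`; the edge sets of the first family are in `F`, those of
the second in `F'`.
`PN_biUnion`: induction on `s` (`Finset.induction_on`), `PN_union`.
`PN_of_finset`: a corollary with all `k i = 1` (`Finset.card_eq_sum_ones`), `PN_le`.
-/

namespace Pool.Agent.Lib.MP_94420a_co

variable {V : Type} [DecidableEq V]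

theorem PN_empty (k : ℕ) : PN (∅ : Finset (Sym2 V)) k := by
  refine ⟨fun _ => [], fun _ => List.nodup_nil, fun _ _ _ => ?_, ?_⟩
  · simp [le_nil]
  · ext e
    simp [le_nil]

theorem PN_le {l : List V} (h : l.Nodup) : PN (le l) 1 := by
  refine ⟨fun _ => l, fun _ => h, fun i j hij => absurd (Subsingleton.elim i j) hij, ?_⟩
  simp

theorem PN_union {F F' : Finset (Sym2 V)} {k k' : ℕ} (h : PN F k) (h' : PN F' k')
    (hd : Disjoint F F') : PN (F ∪ F') (k + k') := by
  obtain ⟨f, hf1, hf2, hf3⟩ := h
  obtain ⟨g, hg1, hg2, hg3⟩ := h'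
  have hfF : ∀ i, le (f i) ⊆ F := fun i => by
    rw [← hf3]; exact Finset.subset_biUnion_of_mem (fun i => le (f i)) (Finset.mem_univ i)
  have hgF : ∀ i, le (g i) ⊆ F' := fun i => by
    rw [← hg3]; exact Finset.subset_biUnion_of_mem (fun i => le (g i)) (Finset.mem_univ i)
  refine ⟨Fin.append f g, ?_, ?_, ?_⟩
  · intro i
    refine Fin.addCases (fun i => ?_) (fun i => ?_) i
    · rw [Fin.append_left]; exact hf1 i
    · rw [Fin.append_right]; exact hg1 i
  · intro i j
    refine Fin.addCases (fun i => ?_) (fun i => ?_) i <;>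
      refine Fin.addCases (fun j => ?_) (fun j => ?_) j
    · intro hij
      rw [Fin.append_left, Fin.append_left]
      exact hf2 i j fun he => hij (by rw [he])
    · intro _
      rw [Fin.append_left, Fin.append_right]
      exact hd.mono (hfF i) (hgF j)
    · intro _
      rw [Fin.append_left, Fin.append_right]
      exact (hd.mono (hfF j) (hgF i)).symm
    · intro hij
      rw [Fin.append_right, Fin.append_right]
      exact hg2 i j fun he => hij (by rw [he])
  · ext e
    simp only [Finset.mem_biUnion, Finset.mem_univ, true_and, Finset.mem_union]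
    rw [← hf3, ← hg3]
    simp only [Finset.mem_biUnion, Finset.mem_univ, true_and]
    constructor
    · rintro ⟨i, hi⟩
      revert hi
      refine Fin.addCases (fun i => ?_) (fun i => ?_) i
      · rw [Fin.append_left]; exact fun hi => Or.inl ⟨i, hi⟩
      · rw [Fin.append_right]; exact fun hi => Or.inr ⟨i, hi⟩
    · rintro (⟨i, hi⟩ | ⟨i, hi⟩)
      · exact ⟨Fin.castAdd k' i, by rw [Fin.append_left]; exact hi⟩
      · exact ⟨Fin.natAdd k i, by rw [Fin.append_right]; exact hi⟩

theorem PN_mono {F : Finset (Sym2 V)} {k k' : ℕ} (h : k ≤ k') (hF : PN F k) : PN F k' := by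
  obtain ⟨d, rfl⟩ := Nat.exists_eq_add_of_le h
  have := PN_union hF (PN_empty (V := V) d) (Finset.disjoint_empty_right F)
  rwa [Finset.union_empty] at this

theorem PN_biUnion {ι : Type} [DecidableEq ι] (s : Finset ι) (F : ι → Finset (Sym2 V)) (k : ι → ℕ)
    (hd : ∀ i ∈ s, ∀ j ∈ s, i ≠ j → Disjoint (F i) (F j)) (h : ∀ i ∈ s, PN (F i) (k i)) :
    PN (s.biUnion F) (∑ i ∈ s, k i) := by
  induction s using Finset.induction_on with
  | empty => simpa using PN_empty 0
  | insert a s ha ih =>
    rw [Finset.biUnion_insert, Finset.sum_insert ha]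
    refine PN_union (h a (Finset.mem_insert_self a s)) (ih ?_ ?_) ?_
    · intro i hi j hj hij
      exact hd i (Finset.mem_insert_of_mem hi) j (Finset.mem_insert_of_mem hj) hij
    · intro i hi
      exact h i (Finset.mem_insert_of_mem hi)
    · rw [Finset.disjoint_biUnion_right]
      intro i hi
      refine hd a (Finset.mem_insert_self a s) i (Finset.mem_insert_of_mem hi) ?_
      rintro rfl
      exact ha hi

theorem PN_of_finset {ι : Type} [DecidableEq ι] (s : Finset ι) (F : ι → Finset (Sym2 V))
    (hd : ∀ i ∈ s, ∀ j ∈ s, i ≠ j → Disjoint (F i) (F j)) (h : ∀ i ∈ s, PN (F i) 1) :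
    PN (s.biUnion F) s.card := by
  rw [Finset.card_eq_sum_ones]
  exact PN_biUnion s F (fun _ => 1) hd h

/-- A family `f` together with one trivial path. -/
theorem PF_snoc {F : Finset (Sym2 V)} {k : ℕ} (h : PN F k) (y : V) :
    ∃ f : Fin (k + 1) → List V, PF F f ∧ ∃ i, IsEnd y (f i) := by
  obtain ⟨f, hf1, hf2, hf3⟩ := h
  refine ⟨Fin.cons [y] f, ⟨?_, ?_, ?_⟩, 0, Or.inl (by simp)⟩
  · intro i
    refine Fin.cases ?_ (fun i => ?_) i
    · simp
    · simpa using hf1 i
  · intro i j
    refine Fin.cases ?_ (fun i => ?_) i <;> refine Fin.cases ?_ (fun j => ?_) j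
    · intro h; exact absurd rfl h
    · intro _; simp [le_singleton]
    · intro _; simp [le_singleton]
    · intro hij
      simpa using hf2 i j fun he => hij (by rw [he])
  · rw [← hf3]
    ext e
    simp only [Finset.mem_biUnion, Finset.mem_univ, true_and]
    rw [Fin.exists_fin_succ]
    simp [le_singleton]

end Pool.Agent.Lib.MP_94420a_co
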