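import Pool.Agent.Lib.MP_94420a_co.LB
import Pool.Agent.Lib.MP_94420a_co.PNA
import Pool.Agent.Lib.MP_94420a_co.Deg

/-!
# Back to simple graphs and walks

`walk_of_list`: induction on the list: a nonempty nodup list whose edges are edges of `G` is the support of
a path of `G` with the edges of the list.
`walks_of_PN`: for an empty list take the trivial walk at any vertex.
`dg_edgeFinset`: `G.incidenceFinset v` is the filter (`SimpleGraph.card_incidenceFinset_eq_degree`).
-/

namespace Pool.Agent.Lib.MP_94420a_co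

variable {V : Type} [DecidableEq V]

theorem walk_of_list (G : SimpleGraph V) : ∀ (l : List V), l.Nodup → l ≠ [] →
    (∀ e ∈ le l, e ∈ G.edgeSet) →
    ∃ (u v : V) (p : G.Walk u v), p.support = l ∧ p.IsPath ∧ ∀ e, e ∈ p.edges ↔ e ∈ le l := by
  intro l hl hne hE
  suffices h : ∀ (l : List V) (a : V), (a :: l).Nodup → (∀ e ∈ le (a :: l), e ∈ G.edgeSet) →
      ∃ (v : V) (p : G.Walk a v), p.support = a :: l ∧ ∀ e, e ∈ p.edges ↔ e ∈ le (a :: l) by
    cases l with
    | nil => exact absurd rfl hne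
    | cons a t =>
      obtain ⟨v, p, h1, h2⟩ := h t a hl hE
      refine ⟨a, v, p, h1, ?_, h2⟩
      rw [SimpleGraph.Walk.isPath_def, h1]
      exact hl
  clear hne hE hl l
  intro l
  induction l with
  | nil =>
    intro a _ _
    refine ⟨a, SimpleGraph.Walk.nil, rfl, fun e => ?_⟩
    simp [le]
  | cons b t ih =>
    intro a hn hE
    have hab : s(a, b) ∈ G.edgeSet := hE _ (by rw [le]; exact Finset.mem_insert_self _ _)
    obtain ⟨v, p, h1, h2⟩ := ih b (List.nodup_cons.1 hn).2 (fun e he => hE e (by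
      rw [le]
      exact Finset.mem_insert_of_mem he))
    refine ⟨v, SimpleGraph.Walk.cons (SimpleGraph.mem_edgeSet G |>.1 hab) p, ?_, fun e => ?_⟩
    · rw [SimpleGraph.Walk.support_cons, h1]
    · rw [SimpleGraph.Walk.edges_cons, List.mem_cons, h2 e, le, Finset.mem_insert]

theorem walks_of_PN [Fintype V] [Nonempty V] (G : SimpleGraph V) [DecidableRel G.Adj] {k : ℕ}
    (h : PN G.edgeFinset k) :
    ∃ (u v : Fin k → V) (p : (i : Fin k) → G.Walk (u i) (v i)),
      (∀ i, (p i).IsPath) ∧ ∀ e ∈ G.edgeSet, ∃! i, e ∈ (p i).edges := by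
  obtain ⟨f, hf1, hf2, hf3⟩ := h
  have hsub : ∀ i, ∀ e ∈ le (f i), e ∈ G.edgeSet := by
    intro i e he
    have : e ∈ Finset.univ.biUnion (fun i => le (f i)) :=
      Finset.mem_biUnion.2 ⟨i, Finset.mem_univ _, he⟩
    rw [hf3] at this
    exact SimpleGraph.mem_edgeFinset.1 this
  have hex : ∀ i, ∃ (u v : V) (p : G.Walk u v), p.IsPath ∧ ∀ e, e ∈ p.edges ↔ e ∈ le (f i) := by
    intro i
    by_cases h0 : f i = []
    · obtain ⟨z⟩ := ‹Nonempty V›
      refine ⟨z, z, SimpleGraph.Walk.nil, SimpleGraph.Walk.IsPath.nil, fun e => ?_⟩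
      rw [h0]
      simp [le]
    · obtain ⟨u, v, p, _, h2, h3⟩ := walk_of_list G (f i) (hf1 i) h0 (hsub i)
      exact ⟨u, v, p, h2, h3⟩
  choose u v p hp1 hp2 using hex
  refine ⟨u, v, p, hp1, fun e he => ?_⟩
  have h1 : e ∈ Finset.univ.biUnion (fun i => le (f i)) := by
    rw [hf3]
    exact SimpleGraph.mem_edgeFinset.2 he
  obtain ⟨i, _, hi⟩ := Finset.mem_biUnion.1 h1
  refine ⟨i, (hp2 i e).2 hi, fun j hj => ?_⟩
  by_contra hne
  exact Finset.disjoint_left.1 (hf2 j i hne) ((hp2 j e).1 hj) hi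

theorem Ll_edgeFinset [Fintype V] (G : SimpleGraph V) [DecidableRel G.Adj] : Ll G.edgeFinset := by
  intro e he
  exact G.not_isDiag_of_mem_edgeSet (SimpleGraph.mem_edgeFinset.1 he)

theorem dg_edgeFinset [Fintype V] (G : SimpleGraph V) [DecidableRel G.Adj] (v : V) :
    dg G.edgeFinset v = G.degree v := by
  rw [dg, ← SimpleGraph.card_incidenceFinset_eq_degree]
  congr 1
  ext e
  rw [Finset.mem_filter, SimpleGraph.mem_edgeFinset, SimpleGraph.mem_incidenceFinset]
  rfl

end Pool.Agent.Lib.MP_94420a_co
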