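import Pool.Agent.Lib.MP_94420a_co.Main
import Pool.Agent.Lib.MP_94420a_co.Walks

/-!
# The statement for simple graphs
-/

namespace Pool.Agent.Lib.MP_94420a_co

open Classical in
/-- Every graph on `n` vertices has, for every `d ≥ 1`, a decomposition into at most
`(1/2 + 8/√d) n + b/2` paths, where `b` is the number of vertices of even degree in `{1, .., d - 1}`. -/
theorem final {V : Type} [Fintype V] [Nonempty V] (G : SimpleGraph V) (d : ℕ) (hd : 0 < d) :
    ∃ (k : ℕ) (u v : Fin k → V) (p : (i : Fin k) → G.Walk (u i) (v i)),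
      (k : ℝ) ≤ (1 / 2 + 8 / √(d : ℝ)) * Fintype.card V +
        ((Finset.univ.filter fun v => Even (G.degree v) ∧ 0 < G.degree v ∧ G.degree v < d).card : ℝ)
          / 2 ∧
      (∀ i, (p i).IsPath) ∧ ∀ e ∈ G.edgeSet, ∃! i, e ∈ (p i).edges := by
  obtain ⟨k, hk, hk2⟩ := main_thm (Ll_edgeFinset G) d hd
  obtain ⟨u, v, p, hp, he⟩ := walks_of_PN G hk
  refine ⟨k, u, v, p, ?_, hp, he⟩
  simpa only [dg_edgeFinset] using hk2

end Pool.Agent.Lib.MP_94420a_co
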