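import Pool.Agent.Lib.MP_94420a_co.Defs

/-!
# Edges of lists

All statements are by induction on the list (recursion of `le`: `le (a :: b :: t) =
insert s(a, b) (le (b :: t))` is `rfl`).
-/

namespace Pool.Agent.Lib.MP_94420a_co

variable {V : Type} [DecidableEq V]

theorem le_nil : le ([] : List V) = ∅ := rfl

theorem le_singleton (a : V) : le [a] = ∅ := rfl

theorem le_cons_cons (a b : V) (t : List V) : le (a :: b :: t) = insert s(a, b) (le (b :: t)) := rfl

theorem mem_of_mem_le {l : List V} {e : Sym2 V} (h : e ∈ le l) {v : V} (hv : v ∈ e) : v ∈ l := by
  induction l with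
  | nil => simp [le_nil] at h
  | cons a t ih =>
    cases t with
    | nil => simp [le_singleton] at h
    | cons b t =>
      rw [le_cons_cons, Finset.mem_insert] at h
      rcases h with h | h
      · subst h
        rw [Sym2.mem_iff] at hv
        rcases hv with hv | hv <;> simp [hv]
      · exact List.mem_cons_of_mem _ (ih h)

theorem le_cons_head {l : List V} {b : V} (h : l.head? = some b) (c : V) :
    le (c :: l) = insert s(c, b) (le l) := by
  cases l with
  | nil => simp at h
  | cons a t =>
    simp only [List.head?_cons, Option.some.injEq] at h
    subst h
    rfl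

theorem le_append_cons (l₁ : List V) (a : V) (l₂ : List V) :
    le (l₁ ++ a :: l₂) = le (l₁ ++ [a]) ∪ le (a :: l₂) := by
  induction l₁ with
  | nil => simp [le_singleton]
  | cons c t ih =>
    cases t with
    | nil =>
      simp only [List.cons_append, List.nil_append, le_cons_cons, le_singleton]
      rw [Finset.insert_union, Finset.empty_union]
    | cons d t =>
      simp only [List.cons_append, le_cons_cons] at ih ⊢
      rw [ih, Finset.insert_union]

theorem le_concat {l : List V} {b : V} (h : l.getLast? = some b) (c : V) :
    le (l ++ [c]) = insert s(b, c) (le l) := by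
  induction l with
  | nil => simp at h
  | cons a t ih =>
    cases t with
    | nil =>
      simp only [List.getLast?_singleton, Option.some.injEq] at h
      subst h
      rfl
    | cons d t =>
      rw [List.getLast?_cons_cons] at h
      have := ih h
      simp only [List.cons_append, le_cons_cons] at this ⊢
      rw [this, Finset.insert_comm]

theorem le_append {l₁ l₂ : List V} {a b : V} (h1 : l₁.getLast? = some a) (h2 : l₂.head? = some b) :
    le (l₁ ++ l₂) = insert s(a, b) (le l₁ ∪ le l₂) := by
  cases l₂ with
  | nil => simp at h2
  | cons c t =>
    simp only [List.head?_cons, Option.some.injEq] at h2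
    subst h2
    rw [le_append_cons, le_concat h1, Finset.insert_union]

theorem le_reverse (l : List V) : le l.reverse = le l := by
  induction l with
  | nil => rfl
  | cons a t ih =>
    cases t with
    | nil => rfl
    | cons b t =>
      rw [List.reverse_cons, le_concat (b := b) (by simp), ih, le_cons_cons, Sym2.eq_swap]

theorem Ll_le {l : List V} (h : l.Nodup) : Ll (le l) := by
  induction l with
  | nil => intro e he; simp [le_nil] at he
  | cons a t ih =>
    cases t with
    | nil => intro e he; simp [le_singleton] at he
    | cons b t =>
      intro e he
      rw [le_cons_cons, Finset.mem_insert] at he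
      rcases he with he | he
      · subst he
        rw [Sym2.mk_isDiag_iff]
        rintro rfl
        simp at h
      · exact ih (List.nodup_cons.1 h).2 e he

/-- A head is a member. -/
theorem mem_of_head? {l : List V} {a : V} (h : l.head? = some a) : a ∈ l :=
  List.mem_of_head? h

/-- The edges of `x :: l` at `x` when `x` is not on `l`. -/
theorem mem_le_cons {x a : V} {l : List V} (hx : x ∉ l) :
    s(x, a) ∈ le (x :: l) ↔ l.head? = some a := by
  cases l with
  | nil => simp [le_singleton]
  | cons b t =>
    rw [le_cons_cons, Finset.mem_insert, List.head?_cons, Option.some.injEq]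
    constructor
    · rintro (h | h)
      · rw [Sym2.eq_iff] at h
        rcases h with ⟨-, h⟩ | ⟨h, h'⟩
        · exact h.symm
        · rw [← h, h'] 
      · exact absurd (mem_of_mem_le h (Sym2.mem_mk_left x a)) hx
    · rintro rfl
      exact Or.inl rfl

theorem mem_of_getLast? {l : List V} {a : V} (h : l.getLast? = some a) : a ∈ l :=
  List.mem_of_getLast? h

theorem IsEnd.mem {l : List V} {a : V} (h : IsEnd a l) : a ∈ l :=
  h.elim mem_of_head? mem_of_getLast?

end Pool.Agent.Lib.MP_94420a_co
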