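import Pool.Agent.Lib.MP_94420a_co.LA

/-!
# Degrees in a path

`even_dg_le`: a vertex that is not an end of the path `l` has degree `0` or `2` in it.
Proof: if `v ∉ l` then no edge contains `v` (`mem_of_mem_le`). Otherwise `l = l₁ ++ v :: l₂`
(`List.append_of_mem`) with `l₁`, `l₂` nonempty (not an end); `le l = insert s(a, v) (insert s(v, b)
(le l₁ ∪ le l₂))` with `a` the last vertex of `l₁` and `b` the first of `l₂`; the edges of `le l₁`,
`le l₂` do not contain `v`, and `s(a, v) ≠ s(v, b)` because `a ≠ b` (nodup).  So the filter is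
`{s(a, v), s(v, b)}`, of card `2`.

`isEnd_of_odd`: `dg E v = ∑ i, dg (le (f i)) v` (`Finset.card_biUnion` after `Finset.filter_biUnion`)
is odd, so some summand is not even (`Finset.even_sum`), so `v` is an end of some `f i`.
-/

namespace Pool.Agent.Lib.MP_94420a_co

variable {V : Type} [DecidableEq V]

theorem even_dg_le {l : List V} (h : l.Nodup) {v : V} (hv : ¬IsEnd v l) : Even (dg (le l) v) := by
  by_cases hvl : v ∈ l
  · obtain ⟨l₁, l₂, rfl⟩ := List.append_of_mem hvl
    rcases List.eq_nil_or_concat l₁ with rfl | ⟨l₁', a, rfl⟩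
    · exact absurd (Or.inl (by simp)) hv
    rw [List.concat_eq_append] at h hv ⊢
    cases l₂ with
    | nil => exact absurd (Or.inr (by simp)) hv
    | cons b t =>
      have hle : le ((l₁' ++ [a]) ++ v :: b :: t) =
          insert s(a, v) (insert s(v, b) (le (l₁' ++ [a]) ∪ le (b :: t))) := by
        rw [le_append (a := a) (b := v) (by simp) (by simp), le_cons_cons, Finset.union_insert]
      rw [List.nodup_append] at h
      obtain ⟨h1, h2, h3⟩ := h
      have hva : v ∉ l₁' ++ [a] := fun hm => h3 v hm v (by simp) rfl
      have hvb : v ∉ b :: t := (List.nodup_cons.1 h2).1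
      have hab : a ≠ b := h3 a (by simp) b (by simp)
      have hav : a ≠ v := h3 a (by simp) v (by simp)
      have hfil : (le ((l₁' ++ [a]) ++ v :: b :: t)).filter (fun e => v ∈ e) =
          {s(a, v), s(v, b)} := by
        rw [hle]
        ext e
        simp only [Finset.mem_filter, Finset.mem_insert, Finset.mem_union, Finset.mem_singleton]
        constructor
        · rintro ⟨h | h | h | h, hm⟩
          · exact Or.inl h
          · exact Or.inr h
          · exact absurd (mem_of_mem_le h hm) hva
          · exact absurd (mem_of_mem_le h hm) hvb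
        · rintro (rfl | rfl)
          · exact ⟨Or.inl rfl, Sym2.mem_mk_right a v⟩
          · exact ⟨Or.inr (Or.inl rfl), Sym2.mem_mk_left v b⟩
      unfold dg
      rw [hfil, Finset.card_pair]
      · exact even_two
      · intro hc
        rw [Sym2.eq_iff] at hc
        rcases hc with ⟨hc, -⟩ | ⟨hc, -⟩
        · exact hav hc
        · exact hab hc
  · have hfil : (le l).filter (fun e => v ∈ e) = ∅ := by
      rw [Finset.filter_eq_empty_iff]
      intro e he hm
      exact hvl (mem_of_mem_le he hm)
    unfold dg
    rw [hfil]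
    simp

theorem dg_biUnion {E : Finset (Sym2 V)} {k : ℕ} {f : Fin k → List V} (h : PF E f) (v : V) :
    dg E v = ∑ i, dg (le (f i)) v := by
  obtain ⟨-, hd, hu⟩ := h
  unfold dg
  rw [← hu, Finset.filter_biUnion, Finset.card_biUnion]
  intro i _ j _ hij
  exact (hd i j hij).mono (Finset.filter_subset _ _) (Finset.filter_subset _ _)

theorem isEnd_of_odd {E : Finset (Sym2 V)} {k : ℕ} {f : Fin k → List V} (h : PF E f) {v : V}
    (hv : Odd (dg E v)) : ∃ i, IsEnd v (f i) := by
  by_contra hcon
  push Not at hcon
  rw [dg_biUnion h v] at hv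
  have : Even (∑ i, dg (le (f i)) v) :=
    Finset.even_sum _ fun i _ => even_dg_le (h.1 i) (hcon i)
  exact (Nat.not_even_iff_odd.2 hv) this

end Pool.Agent.Lib.MP_94420a_co
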