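import Pool.Agent.Lib.MP_94420a_co.SegA

/-!
# The modified path: nodup and ends

Everything by unfolding `md`, `out`, `inn`, with `bf_af`.
-/

namespace Pool.Agent.Lib.MP_94420a_co

variable {V : Type} [DecidableEq V]

theorem md_nodup {x : V} {l : List V} (hl : l.Nodup) {p q : Bool}
    (h : x ∈ l ∨ ¬(p = true ∧ q = true)) : (md x l p q).Nodup := by
  by_cases hx : x ∈ l
  · have h1 : (if p then (bf x l).reverse else bf x l).Perm (bf x l) := by
      cases p
      · exact List.Perm.refl _
      · exact List.reverse_perm _
    have h2 : (if q then (af x l).reverse else af x l).Perm (af x l) := by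
      cases q
      · exact List.Perm.refl _
      · exact List.reverse_perm _
    have h3 : (md x l p q).Perm l := by
      unfold md
      rw [if_pos hx]
      conv_rhs => rw [← bf_af hx]
      exact h1.append (h2.cons x)
    exact h3.nodup_iff.2 hl
  · unfold md
    rw [if_neg hx]
    cases p <;> cases q
    · simpa using hl
    · simp only [Bool.false_eq_true, if_false, if_true, List.nil_append]
      rw [List.nodup_append]
      refine ⟨hl, List.nodup_singleton x, ?_⟩
      intro a ha b hb hab
      rw [List.mem_singleton] at hb
      rw [hab, hb] at ha
      exact hx ha
    · simp only [Bool.false_eq_true, if_false, if_true, List.append_nil]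
      rw [List.singleton_append, List.nodup_cons]
      exact ⟨hx, hl⟩
    · rcases h with h | h
      · exact absurd h hx
      · exact absurd ⟨rfl, rfl⟩ h

theorem md_cyc {x : V} {l : List V} (h : x ∉ l) : md x l true true = x :: (l ++ [x]) := by
  simp [md, h]

theorem isEnd_md_inn_left {x z : V} {l : List V} (h : inn x l false = some z) (q : Bool) :
    IsEnd z (md x l true q) := by
  by_cases hx : x ∈ l
  · left
    simp only [inn, if_pos hx, Bool.false_eq_true, if_false] at h
    simp only [md, if_pos hx, if_true]
    rw [List.head?_append, List.head?_reverse, h]
    rfl
  · simp [inn, hx] at h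

omit [DecidableEq V] in
private theorem SegC_last (A B : List V) (x v : V) (h : B.getLast? = some v) :
    (A ++ x :: B).getLast? = some v := by
  rw [List.getLast?_append, List.getLast?_cons, h]
  rfl

theorem isEnd_md_inn_right {x z : V} {l : List V} (h : inn x l true = some z) (p : Bool) :
    IsEnd z (md x l p true) := by
  by_cases hx : x ∈ l
  · right
    simp only [inn, if_pos hx, if_true] at h
    simp only [md, if_pos hx, if_true]
    apply SegC_last
    rw [List.getLast?_reverse, h]
  · simp [inn, hx] at h

theorem isEnd_md_out_left {x v : V} {l : List V} (h : out x l false = some v) (q : Bool) :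
    IsEnd v (md x l false q) := by
  left
  by_cases hx : x ∈ l
  · simp only [out, if_pos hx, Bool.false_eq_true, if_false] at h
    simp only [md, if_pos hx, Bool.false_eq_true, if_false]
    rw [List.head?_append, h]
    rfl
  · simp only [out, if_neg hx, Bool.false_eq_true, if_false] at h
    simp only [md, if_neg hx, Bool.false_eq_true, if_false, List.nil_append]
    rw [List.head?_append, h]
    rfl

theorem isEnd_md_out_right {x v : V} {l : List V} (h : out x l true = some v) (p : Bool) :
    IsEnd v (md x l p false) := by
  right
  by_cases hx : x ∈ l
  · simp only [out, if_pos hx, if_true] at h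
    simp only [md, if_pos hx, Bool.false_eq_true, if_false]
    exact SegC_last _ _ _ _ h
  · simp only [out, if_neg hx, if_true] at h
    simp only [md, if_neg hx, Bool.false_eq_true, if_false, List.append_nil]
    rw [List.getLast?_append, h]
    rfl

theorem isEnd_md_self {x : V} {l : List V} (h : x ∉ l) {p q : Bool} (hpq : p = true ∨ q = true) :
    IsEnd x (md x l p q) := by
  rcases hpq with rfl | rfl
  · left
    simp [md, h]
  · right
    simp only [md, if_neg h, if_true]
    rw [List.getLast?_append, List.getLast?_append, List.getLast?_singleton]
    rfl

/-- If `x ∉ l` and both ends are different vertices the list has length at least `2`. -/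
theorem two_le_length {x v w : V} {l : List V} (hx : x ∉ l) (hv : out x l false = some v)
    (hw : out x l true = some w) (h : v ≠ w) : 2 ≤ l.length := by
  simp only [out, if_neg hx, Bool.false_eq_true, if_false] at hv
  simp only [out, if_neg hx, if_true] at hw
  match l, hv, hw with
  | [], hv, _ => simp at hv
  | [a], hv, hw =>
    simp at hv hw
    exact absurd (hv.symm.trans hw) h
  | a :: b :: t, _, _ => simp

end Pool.Agent.Lib.MP_94420a_co
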