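import Pool.Agent.Lib.MP_94420a_co.StarA
import Pool.Agent.Lib.MP_94420a_co.SegC
import Pool.Agent.Lib.MP_94420a_co.Abs

/-!
# The star lemma (Lovasz)

Proof.  Apply `closure_lemma` with `T = Fin k × Bool`, `out τ = out x (f τ.1) τ.2`,
`inn τ = inn x (f τ.1) τ.2`, `A v = (v ≠ x ∧ (s(x, v) ∈ H ∨ v ∈ S))`:
* `hout`: `hend` and `out_of_isEnd`;
* `hinn`: `inn_mem` gives `s(x, z) ∈ le (f i) ⊆ H`, so `z ∉ S` by `hSH`, and `z ≠ x` by `Ll_le`;
* `hinj`: both edges are `s(x, z)`, so the indices `i` are equal (the sets `le (f i)` are disjoint) and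
  `inn_inj` gives the side;
* `hsur`: `s(x, a) ∈ H` lies in some `le (f i)`, `inn_of_mem`.
Let `F` be the resulting set, `g i = md x (f i) (decide ((i, false) ∈ F)) (decide ((i, true) ∈ F))`,
`C = {i | x ∉ f i ∧ (i, false) ∈ F ∧ (i, true) ∈ F}`.
* For `i ∉ C`: `md_nodup`.  For `i ∈ C`: `md_cyc`, `m = f i`, `two_le_length` (the outer ends are
  different: equal outer ends would give `(i, false) = (i, true)`, second item of `closure_lemma`).
* Edges (`mem_le_g` in StarA, `hF` from the first item): `e ∈ le (g i)` iff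
  `(x ∉ e ∧ e ∈ le (f i))` or `e = s(x, v)` with `out τ = some v`, `τ ∈ F`, `τ.1 = i`, or `e = s(x, z)` with
  `inn τ = some z`, `τ ∉ F`, `τ.1 = i`.
  Disjointness: let `e` be in `le (g i)` and `le (g j)`.  If `x ∉ e` then `e` is in `le (f i)` and `le (f j)`.
  If `e = s(x, a)` (`a` is unique, as `s(x, a) = s(x, a')` gives `a = a'`): both outer: same `τ` (second item);
  outer and inner: third item; both inner: `hinj`.
  Union: an edge `e ∈ H` with `x ∉ e` is in some `le (f i)`, so in `le (g i)`; `e ∈ H` with `x ∈ e`, `e = s(x, a)`,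
  or `e = s(x, a)`, `a ∈ S`: fourth item.  Conversely an edge `s(x, v)` of the second kind has `A v` (first
  item), so it is in `H ∪ st x S`; one of the third kind is in `H` by `inn_mem`.
* `2 * C.card ≤ S.card`: the map `(i, b) ↦ (i, b)` from `C ×ˢ univ` into the filter of the fifth item
  (`inn = none` because `x ∉ f i`).
* sixth: given `IsEnd v (f i)`, `out_of_isEnd`, last item of `closure_lemma`: either some `τ' ∈ F` has
  `inn τ' = some v`: `isEnd_md_inn_left` / `isEnd_md_inn_right` (according to `τ'.2`) for the index `τ'.1`, or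
  the side `τ ∉ F` is not modified: `isEnd_md_out_left` / `isEnd_md_out_right`.
* last: the filter of the fifth item is nonempty: some `(i, b) ∈ F` with `inn = none`.  If `x ∉ f i` use
  `isEnd_md_self`.  If `x ∈ f i` then `inn x (f i) b = none` means that the part of `f i` on the side `b` is
  empty, but `out x (f i) b = some v` (first item), a contradiction.
-/

namespace Pool.Agent.Lib.MP_94420a_co

variable {V : Type} [DecidableEq V] [Fintype V]

omit [Fintype V] in
private theorem Star_inn_none {x : V} {l : List V} {b : Bool} (h : x ∉ l) : inn x l b = none := by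
  unfold inn
  rw [if_neg h]

omit [Fintype V] in
private theorem Star_out_none {x : V} {l : List V} {b : Bool} (hx : x ∈ l) (h : inn x l b = none) :
    out x l b = none := by
  unfold inn at h
  unfold out
  rw [if_pos hx] at h ⊢
  cases b
  · simp only [Bool.false_eq_true, if_false] at h ⊢
    rw [List.getLast?_eq_none_iff] at h
    rw [h]
    rfl
  · simp only [if_true] at h ⊢
    rw [List.head?_eq_none_iff] at h
    rw [h]
    rfl

omit [DecidableEq V] [Fintype V] in
private theorem Star_sym {x v w : V} (h : s(x, v) = s(x, w)) : v = w := Sym2.congr_right.mp h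

theorem star_lemma {k : ℕ} {H : Finset (Sym2 V)} {f : Fin k → List V} (hf : PF H f) (x : V)
    (S : Finset V) (hxS : x ∉ S) (hSH : ∀ a ∈ S, s(x, a) ∉ H)
    (hend : ∀ v, v ≠ x → (s(x, v) ∈ H ∨ v ∈ S) → ∃ i, IsEnd v (f i)) :
    ∃ (g : Fin k → List V) (C : Finset (Fin k)),
      (∀ i, i ∉ C → (g i).Nodup) ∧
      (∀ i ∈ C, ∃ m : List V, m.Nodup ∧ x ∉ m ∧ 2 ≤ m.length ∧ g i = x :: (m ++ [x])) ∧
      (∀ i j, i ≠ j → Disjoint (le (g i)) (le (g j))) ∧
      Finset.univ.biUnion (fun i => le (g i)) = H ∪ st x S ∧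
      2 * C.card ≤ S.card ∧
      (∀ v, v ∉ S → v ≠ x → (∃ i, IsEnd v (f i)) → ∃ i, IsEnd v (g i)) ∧
      (S.card = 1 → ∃ i, IsEnd x (g i)) := by
  obtain ⟨hn, hdis, hun⟩ := hf
  have hleH : ∀ i, le (f i) ⊆ H := by
    intro i e he
    rw [← hun, Finset.mem_biUnion]
    exact ⟨i, Finset.mem_univ i, he⟩
  have hHle : ∀ e ∈ H, ∃ i, e ∈ le (f i) := by
    intro e he
    rw [← hun, Finset.mem_biUnion] at he
    obtain ⟨i, -, hi⟩ := he
    exact ⟨i, hi⟩
  have hne : ∀ a, s(x, a) ∈ H → a ≠ x := by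
    intro a ha hax
    obtain ⟨i, hi⟩ := hHle _ ha
    refine Ll_le (hn i) _ hi ?_
    rw [hax]
    exact Sym2.mk_isDiag_iff.mpr rfl
  have hinj : ∀ (τ τ' : Fin k × Bool) (z : V), inn x (f τ.1) τ.2 = some z →
      inn x (f τ'.1) τ'.2 = some z → τ = τ' := by
    rintro ⟨i, b⟩ ⟨j, c⟩ z h h'
    have h1 := inn_mem (hn i) h
    have h2 := inn_mem (hn j) h'
    have hij : i = j := by
      by_contra hij
      exact Finset.disjoint_left.mp (hdis i j hij) h1 h2
    subst hij
    have hbc : b = c := inn_inj (hn i) h h'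
    rw [hbc]
  obtain ⟨F, h1, h2, h3, h4, h5, h6⟩ := closure_lemma (T := Fin k × Bool) (V := V)
    (fun τ => out x (f τ.1) τ.2) (fun τ => inn x (f τ.1) τ.2)
    (fun v => v ≠ x ∧ (s(x, v) ∈ H ∨ v ∈ S)) S
    (by
      rintro v ⟨hv, hv'⟩
      obtain ⟨i, hi⟩ := hend v hv hv'
      obtain ⟨b, hb⟩ := out_of_isEnd (hn i) hi hv
      exact ⟨(i, b), hb⟩)
    (by
      intro v hv
      exact ⟨fun h => hxS (h ▸ hv), Or.inr hv⟩)
    (by
      rintro ⟨i, b⟩ z hz
      have hz1 := hleH i (inn_mem (hn i) hz)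
      exact ⟨⟨hne z hz1, Or.inl hz1⟩, fun hzS => hSH z hzS hz1⟩)
    hinj
    (by
      rintro a ⟨ha, ha'⟩ haS
      rcases ha' with ha' | ha'
      · obtain ⟨i, hi⟩ := hHle _ ha'
        obtain ⟨b, hb⟩ := inn_of_mem (hn i) hi
        exact ⟨(i, b), hb⟩
      · exact absurd ha' haS)
  have hF : ∀ τ ∈ F, ∃ v, out x (f τ.1) τ.2 = some v := by
    intro τ hτ
    obtain ⟨v, -, hv⟩ := h1 τ hτ
    exact ⟨v, hv⟩
  have hmem := mem_le_g hn x F hF
  have hedge : ∀ a, (a ≠ x ∧ (s(x, a) ∈ H ∨ a ∈ S)) → ∃ i,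
      s(x, a) ∈ le (md x (f i) (decide ((i, false) ∈ F)) (decide ((i, true) ∈ F))) := by
    intro a ha
    rcases h4 a ha with ⟨τ, hτ, hτa⟩ | ⟨τ, hτ, hτa⟩
    · exact ⟨τ.1, (hmem τ.1 _).mpr (Or.inr (Or.inl ⟨τ, hτ, rfl, a, hτa, rfl⟩))⟩
    · exact ⟨τ.1, (hmem τ.1 _).mpr (Or.inr (Or.inr ⟨τ, hτ, rfl, a, hτa, rfl⟩))⟩
  refine ⟨fun i => md x (f i) (decide ((i, false) ∈ F)) (decide ((i, true) ∈ F)),
    Finset.univ.filter (fun i => x ∉ f i ∧ (i, false) ∈ F ∧ (i, true) ∈ F), ?_, ?_, ?_, ?_, ?_, ?_, ?_⟩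
  · intro i hi
    refine md_nodup (hn i) ?_
    by_contra hcon
    push Not at hcon
    apply hi
    rw [Finset.mem_filter]
    exact ⟨Finset.mem_univ i, hcon.1, of_decide_eq_true hcon.2.1, of_decide_eq_true hcon.2.2⟩
  · intro i hi
    rw [Finset.mem_filter] at hi
    obtain ⟨-, hx, hi1, hi2⟩ := hi
    obtain ⟨v, hv⟩ := hF _ hi1
    obtain ⟨w, hw⟩ := hF _ hi2
    refine ⟨f i, hn i, hx, two_le_length hx hv hw ?_, ?_⟩
    · intro hvw
      have h7 := h2 _ hi1 _ hi2 (by
        show out x (f i) false = out x (f i) true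
        rw [hvw] at hv
        exact hv.trans hw.symm)
      exact absurd (congrArg Prod.snd h7) (by simp)
    · show md x (f i) (decide ((i, false) ∈ F)) (decide ((i, true) ∈ F)) = _
      rw [decide_eq_true hi1, decide_eq_true hi2]
      exact md_cyc hx
  · intro i j hij
    rw [Finset.disjoint_left]
    intro e hei hej
    rw [hmem] at hei hej
    rcases hei with ⟨hei1, hei2⟩ | ⟨τ, hτ, hτi, v, hv, rfl⟩ | ⟨τ, hτ, hτi, z, hz, rfl⟩
    · rcases hej with ⟨hej1, hej2⟩ | ⟨τ', hτ', hτj, v', hv', rfl⟩ | ⟨τ', hτ', hτj, z', hz', rfl⟩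
      · exact Finset.disjoint_left.mp (hdis i j hij) hei2 hej2
      · exact hei1 (Sym2.mem_mk_left _ _)
      · exact hei1 (Sym2.mem_mk_left _ _)
    · rcases hej with ⟨hej1, hej2⟩ | ⟨τ', hτ', hτj, v', hv', he⟩ | ⟨τ', hτ', hτj, z', hz', he⟩
      · exact hej1 (Sym2.mem_mk_left _ _)
      · have := Star_sym he
        subst this
        have h7 := h2 τ hτ τ' hτ' (hv.trans hv'.symm)
        exact hij (by rw [← hτi, ← hτj, h7])
      · have := Star_sym he
        subst this
        exact h3 τ hτ τ' hτ' v hv hz'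
    · rcases hej with ⟨hej1, hej2⟩ | ⟨τ', hτ', hτj, v', hv', he⟩ | ⟨τ', hτ', hτj, z', hz', he⟩
      · exact hej1 (Sym2.mem_mk_left _ _)
      · have := Star_sym he
        subst this
        exact h3 τ' hτ' τ hτ z hv' hz
      · have := Star_sym he
        subst this
        have h7 := hinj τ τ' z hz hz'
        exact hij (by rw [← hτi, ← hτj, h7])
  · ext e
    rw [Finset.mem_biUnion, Finset.mem_union]
    constructor
    · rintro ⟨i, -, hi⟩
      rw [hmem] at hi
      rcases hi with ⟨-, hi⟩ | ⟨τ, hτ, hτi, v, hv, rfl⟩ | ⟨τ, hτ, hτi, z, hz, rfl⟩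
      · exact Or.inl (hleH i hi)
      · obtain ⟨v', ⟨hv1, hv2⟩, hv3⟩ := h1 τ hτ
        have h7 : v' = v := Option.some_injective _ (hv3.symm.trans hv)
        subst h7
        rcases hv2 with hv2 | hv2
        · exact Or.inl hv2
        · right
          unfold st
          exact Finset.mem_image_of_mem _ hv2
      · exact Or.inl (hleH _ (inn_mem (hn _) hz))
    · rintro (he | he)
      · by_cases hx : x ∈ e
        · obtain ⟨a, rfl⟩ := hx
          obtain ⟨i, hi⟩ := hedge a ⟨hne a he, Or.inl he⟩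
          exact ⟨i, Finset.mem_univ i, hi⟩
        · obtain ⟨i, hi⟩ := hHle e he
          exact ⟨i, Finset.mem_univ i, (hmem i e).mpr (Or.inl ⟨hx, hi⟩)⟩
      · unfold st at he
        rw [Finset.mem_image] at he
        obtain ⟨a, ha, rfl⟩ := he
        obtain ⟨i, hi⟩ := hedge a ⟨fun h => hxS (h ▸ ha), Or.inr ha⟩
        exact ⟨i, Finset.mem_univ i, hi⟩
  · rw [← h5]
    have h7 : 2 * (Finset.univ.filter (fun i => x ∉ f i ∧ (i, false) ∈ F ∧ (i, true) ∈ F)).card =
        ((Finset.univ.filter (fun i => x ∉ f i ∧ (i, false) ∈ F ∧ (i, true) ∈ F)) ×ˢ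
          (Finset.univ : Finset Bool)).card := by
      rw [Finset.card_product]
      simp [mul_comm]
    rw [h7]
    apply Finset.card_le_card
    rintro ⟨i, b⟩ hib
    rw [Finset.mem_product, Finset.mem_filter] at hib
    obtain ⟨⟨-, hx, hi1, hi2⟩, -⟩ := hib
    rw [Finset.mem_filter]
    refine ⟨?_, Star_inn_none hx⟩
    cases b
    · exact hi1
    · exact hi2
  · rintro v hvS hvx ⟨i, hi⟩
    obtain ⟨b, hb⟩ := out_of_isEnd (hn i) hi hvx
    rcases h6 (i, b) v hb hvS with ⟨⟨j, c⟩, hτ, hτv⟩ | hnot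
    · refine ⟨j, ?_⟩
      show IsEnd v (md x (f j) (decide ((j, false) ∈ F)) (decide ((j, true) ∈ F)))
      cases c
      · rw [decide_eq_true hτ]
        exact isEnd_md_inn_left hτv _
      · rw [decide_eq_true hτ]
        exact isEnd_md_inn_right hτv _
    · refine ⟨i, ?_⟩
      show IsEnd v (md x (f i) (decide ((i, false) ∈ F)) (decide ((i, true) ∈ F)))
      cases b
      · rw [decide_eq_false hnot]
        exact isEnd_md_out_left hb _
      · rw [decide_eq_false hnot]
        exact isEnd_md_out_right hb _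
  · intro hS1
    have h7 : 0 < (F.filter fun τ => inn x (f τ.1) τ.2 = none).card := by
      have := h5
      rw [hS1] at this
      omega
    obtain ⟨⟨i, b⟩, hib⟩ := Finset.card_pos.mp h7
    rw [Finset.mem_filter] at hib
    obtain ⟨hib1, hib2⟩ := hib
    by_cases hx : x ∈ f i
    · have h8 := Star_out_none hx hib2
      obtain ⟨v, hv⟩ := hF _ hib1
      rw [h8] at hv
      exact absurd hv (by simp)
    · refine ⟨i, isEnd_md_self hx ?_⟩
      cases b
      · exact Or.inl (decide_eq_true hib1)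
      · exact Or.inr (decide_eq_true hib1)

end Pool.Agent.Lib.MP_94420a_co
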