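import Pool.Agent.Lib.MP_94420a_co.LB
import Pool.Agent.Lib.MP_94420a_co.CCost
import Pool.Agent.Lib.MP_94420a_co.CycA
import Pool.Agent.Lib.MP_94420a_co.Star
import Pool.Agent.Lib.MP_94420a_co.Deg

/-!
# Removing the star to all even neighbours of a vertex

Proof of `star_step`.  Let `S = nb E x ∩ ev E`, `H = E \ st x S`, `f` the family for `H`.
`x ∉ S` (`not_mem_nb_self`), `s(x, a) ∉ H` for `a ∈ S`.  Let `v ≠ x` with `s(x, v) ∈ H` or `v ∈ S`.  Then
`v ∈ nb E x`, and `dg H v` is odd: if `v ∈ S`, `dg H v + 1 = dg E v` is even (`dg_sd_leaf`, `mem_ev`);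
otherwise `dg H v = dg E v ≠ 0` (`dg_sd_other`, `dg_ne_zero`) and `v ∉ ev E`.  So `v` is an end
(`isEnd_of_odd`).  `star_lemma` gives `g`, `C`.  The union over `i ∉ C` of `le (g i)` is a union of `N - C.card`
paths (`PN_of_finset` on `univ \ C`, `PN_le`), the sets `le (g i)`, `i ∈ C`, are cycles with vertex sets
containing `x` (`Cyc_of_list`; choose `m i`, `W i = insert x (m i).toFinset`), so `cyc_cost` and `cyc_cost'`
apply.  `PN_union`, `E = H ∪ st x S` (`sd_union_st`), `c = C.card`.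
-/

namespace Pool.Agent.Lib.MP_94420a_co

variable {V : Type} [DecidableEq V] [Fintype V]

theorem star_step {E : Finset (Sym2 V)} (hE : Ll E) (x : V) {N : ℕ}
    (h : PN (E \ st x (nb E x ∩ ev E)) N) :
    ∃ c, 2 * c ≤ (nb E x ∩ ev E).card ∧ PN E (N + c) ∧ PN E (N + 3 * Nat.sqrt c) := by
  classical
  set S := nb E x ∩ ev E with hS
  have hSnb : S ⊆ nb E x := Finset.inter_subset_left
  have hxS : x ∉ S := fun h => not_mem_nb_self hE x (hSnb h)
  obtain ⟨f, hf⟩ := h
  have hSH : ∀ a ∈ S, s(x, a) ∉ E \ st x S := by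
    intro a ha hmem
    rw [Finset.mem_sdiff] at hmem
    exact hmem.2 (mem_st.mpr ⟨a, ha, rfl⟩)
  have hend : ∀ v, v ≠ x → (s(x, v) ∈ E \ st x S ∨ v ∈ S) → ∃ i, IsEnd v (f i) := by
    intro v hvx hv
    apply isEnd_of_odd hf
    by_cases hvS : v ∈ S
    · have h1 := dg_sd_leaf hSnb hxS hvS
      have h2 := (mem_ev.mp (Finset.mem_inter.mp hvS).2).1
      rw [← h1, Nat.even_add_one, Nat.not_even_iff_odd] at h2
      exact h2
    · rcases hv with hv | hv
      · have h1 := dg_sd_other (E := E) hvx hvS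
        rw [h1]
        have hvE : s(x, v) ∈ E := (Finset.mem_sdiff.mp hv).1
        have hvnb : v ∈ nb E x := mem_nb.mpr hvE
        have h2 := (dg_ne_zero hvnb).2
        by_contra h3
        rw [Nat.not_odd_iff_even] at h3
        exact hvS (Finset.mem_inter.mpr ⟨hvnb, mem_ev.mpr ⟨h3, h2⟩⟩)
      · exact absurd hv hvS
  obtain ⟨g, C, hg1, hg2, hg3, hg4, hg5, _, _⟩ := star_lemma hf x S hxS hSH hend
  rw [sd_union_st hSnb] at hg4
  have hW : ∃ W : Fin N → Finset V, ∀ i ∈ C, Cyc (le (g i)) (W i) ∧ x ∈ W i := by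
    refine ⟨fun i => if hi : i ∈ C then insert x (hg2 i hi).choose.toFinset else ∅, fun i hi => ?_⟩
    simp only [hi, dif_pos]
    obtain ⟨h1, h2, h3, h4⟩ := (hg2 i hi).choose_spec
    refine ⟨?_, Finset.mem_insert_self _ _⟩
    have h5 := Cyc_of_list h1 h2 h3
    rw [← h4] at h5
    exact h5
  obtain ⟨W, hW⟩ := hW
  have hdj : ∀ (s : Finset (Fin N)), ∀ i ∈ s, ∀ j ∈ s, i ≠ j → Disjoint (le (g i)) (le (g j)) :=
    fun s i _ j _ hij => hg3 i j hij
  have hP1 : PN ((Finset.univ \ C).biUnion fun i => le (g i)) (Finset.univ \ C).card :=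
    PN_of_finset _ _ (hdj _) (fun i hi => PN_le (hg1 i (Finset.mem_sdiff.mp hi).2))
  have hP2 := cyc_cost (fun i => le (g i)) W C x (fun i hi => (hW i hi).1) (hdj _) (fun i hi => (hW i hi).2)
  have hP3 := cyc_cost' (fun i => le (g i)) W C x (fun i hi => (hW i hi).1) (hdj _) (fun i hi => (hW i hi).2)
  have hdisj : Disjoint ((Finset.univ \ C).biUnion fun i => le (g i)) (C.biUnion fun i => le (g i)) := by
    rw [Finset.disjoint_biUnion_left]
    intro i hi
    rw [Finset.disjoint_biUnion_right]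
    intro j hj
    apply hg3
    rintro rfl
    exact (Finset.mem_sdiff.mp hi).2 hj
  have hun : ((Finset.univ \ C).biUnion fun i => le (g i)) ∪ (C.biUnion fun i => le (g i)) = E := by
    rw [← Finset.union_biUnion, Finset.sdiff_union_of_subset (Finset.subset_univ C)]
    exact hg4
  have hcard : (Finset.univ \ C).card + C.card = N := by
    rw [Finset.card_sdiff_add_card_eq_card (Finset.subset_univ C)]
    simp
  have hQ2 := PN_union hP1 hP2 hdisj
  have hQ3 := PN_union hP1 hP3 hdisj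
  rw [hun] at hQ2 hQ3
  refine ⟨C.card, hg5, ?_, ?_⟩
  · have h1 : N + C.card = (Finset.univ \ C).card + (C.card + C.card) := by omega
    rw [h1]
    exact hQ3
  · have h1 : N + 3 * Nat.sqrt C.card = (Finset.univ \ C).card + (C.card + 3 * Nat.sqrt C.card) := by omega
    rw [h1]
    exact hQ2

end Pool.Agent.Lib.MP_94420a_co
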