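import Pool.Agent.Lib.MP_94420a_co.Odd
import Pool.Agent.Lib.MP_94420a_co.Step
import Pool.Agent.Lib.MP_94420a_co.EvA

/-!
# Lovasz' bound: at most `(n + g) / 2` paths, `g` the number of vertices of even positive degree

Strong induction on `E.card`.  If `ev E = ∅`: all degrees are `0` or odd, `odd_pn`, `k = (od E).card / 2`,
`2 * k ≤ (od E).card ≤ Fintype.card V`.  Otherwise let `y ∈ ev E`, `dg E y ≠ 0`, so there is `x ∈ nb E y`
(`card_nb`), `y ∈ nb E x ∩ ev E = S`.  `E' = E \ st x S` has fewer edges (`card_sd_st`); induction gives `k'`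
with `2 * k' ≤ n + (ev E').card`; `star_step` gives `c` with `2 * c ≤ S.card` and `PN E (k' + c)`; `ev_sd_card`.
-/

namespace Pool.Agent.Lib.MP_94420a_co

variable {V : Type} [DecidableEq V] [Fintype V]

private theorem LTwo_aux : ∀ (n : ℕ) (E : Finset (Sym2 V)), Ll E → E.card = n →
    ∃ k, PN E k ∧ 2 * k ≤ Fintype.card V + (ev E).card := by
  intro n
  induction n using Nat.strong_induction_on with
  | _ n ih =>
    intro E hE hn
    rcases (ev E).eq_empty_or_nonempty with h | h
    · refine ⟨(od E).card / 2, odd_pn hE ?_, ?_⟩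
      · intro v
        by_cases h0 : dg E v = 0
        · exact Or.inl h0
        · right
          rw [← Nat.not_even_iff_odd]
          intro h1
          have : v ∈ ev E := mem_ev.2 ⟨h1, h0⟩
          rw [h] at this
          exact absurd this (Finset.notMem_empty v)
      · have h1 : (od E).card ≤ Fintype.card V := Finset.card_le_univ _
        omega
    · obtain ⟨y, hy⟩ := h
      obtain ⟨_, hy0⟩ := mem_ev.1 hy
      rw [← card_nb hE y] at hy0
      obtain ⟨x, hx⟩ := Finset.card_pos.1 (Nat.pos_of_ne_zero hy0)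
      have hyS : y ∈ nb E x ∩ ev E := Finset.mem_inter.2 ⟨mem_nb_comm hx, hy⟩
      have hlt := card_sd_st (Finset.inter_subset_left : nb E x ∩ ev E ⊆ nb E x) ⟨y, hyS⟩
      obtain ⟨k', hk', hk2⟩ := ih _ (hn ▸ hlt) (E \ st x (nb E x ∩ ev E)) (Ll_sd hE _) rfl
      obtain ⟨c, hc, hP, _⟩ := star_step hE x hk'
      refine ⟨k' + c, hP, ?_⟩
      have := ev_sd_card hE x hc
      omega

theorem ltwo {E : Finset (Sym2 V)} (hE : Ll E) :
    ∃ k, PN E k ∧ 2 * k ≤ Fintype.card V + (ev E).card :=
  LTwo_aux _ E hE rfl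

end Pool.Agent.Lib.MP_94420a_co
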