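import Mathlib

/-!
# Numerical inequalities

`num_step`.  `2 * c ≤ t + m` gives `6 * Nat.sqrt c ≤ 6 * √((t + m) / 2) = 3 √2 √(t + m)` (`Nat.sqrt_le'`,
`Real.le_sqrt`), and `√(t + m) ≤ √t + m / (2 √t)` (square both sides).  With `√t ≥ √5 > 2.236` and
`3 √2 < 4.243`: `1 - m + 3 √2 √(t + m) ≤ 1 + 4.243 √t + m (4.243 / (2 * 2.236) - 1) ≤ 1 + 4.243 √t ≤ 5 √t`
(as `0.757 * 2.236 ≥ 1`).
On the other side `10 √(n g / d) - 10 √(n (g - t) / d) ≥ 5 √t`: put `r = n / d > 0`, so `g ≤ r t` (hypothesis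
`hg`).  `√(r g) - √(r (g - t)) = r t / (√(r g) + √(r (g - t))) ≥ r t / (2 √(r g)) ≥ r t / (2 √(r r t)) = √t / 2`.

`num_final`: `√(n * n / d) = n / √d`, `n / d ≤ n / √d`.
-/

namespace Pool.Agent.Lib.MP_94420a_co

theorem num_step {n d g t m : ℝ} {c : ℕ} (hn : 0 < n) (hd : 0 < d) (hm : 0 ≤ m) (ht : 5 ≤ t)
    (htg : t ≤ g) (hg : d * g ≤ n * t) (hc : 2 * (c : ℝ) ≤ t + m) :
    1 - m + 6 * (Nat.sqrt c : ℝ) + 10 * √(n * (g - t) / d) ≤ 10 * √(n * g / d) := by
  have ht0 : 0 < t := by linarith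
  have hg0 : 0 < g := by linarith
  -- the square root of t
  set a : ℝ := √t with ha
  have ha0 : 0 < a := Real.sqrt_pos.2 ht0
  have haa : a * a = t := Real.mul_self_sqrt ht0.le
  have ha5 : 2.236 ≤ a := by
    rw [ha]
    apply Real.le_sqrt_of_sq_le
    norm_num
    linarith
  -- the square root of c
  have hs1 : (Nat.sqrt c : ℝ) ^ 2 ≤ (c : ℝ) := by exact_mod_cast Nat.sqrt_le' c
  have hs0 : (0 : ℝ) ≤ (Nat.sqrt c : ℝ) := Nat.cast_nonneg _
  have hk : 1 - m + 6 * (Nat.sqrt c : ℝ) ≤ 5 * a := by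
    -- s ≤ (a + m / (2 a)) / sqrt 2 ≤ 0.70711 * (a + m/(2a))
    have h1 : (Nat.sqrt c : ℝ) ≤ 0.70711 * (a + m / (2 * a)) := by
      refine (sq_le_sq₀ hs0 (by positivity)).1 ?_
      · have h2 : (a + m / (2 * a)) ^ 2 = t + m + (m / (2 * a)) ^ 2 := by
          rw [← haa]
          field_simp
          ring
        rw [mul_pow, h2]
        have h3 := sq_nonneg (m / (2 * a))
        norm_num
        nlinarith only [hs1, hc, h3, hm, ht]
    have h2 : m / (2 * a) ≤ m / (2 * 2.236) := by
      apply div_le_div_of_nonneg_left hm (by norm_num)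
      linarith
    have h3 : m / (2 * 2.236) ≤ 0.2237 * m := by
      rw [div_le_iff₀ (by norm_num)]
      nlinarith only [hm]
    nlinarith only [h1, h2, h3, ha5, hm]
  have hr : 5 * a ≤ 10 * √(n * g / d) - 10 * √(n * (g - t) / d) := by
    set A : ℝ := √(n * g / d) with hA
    set B : ℝ := √(n * (g - t) / d) with hB
    have hA1 : A * A = n * g / d := Real.mul_self_sqrt (by positivity)
    have hB1 : B * B = n * (g - t) / d := Real.mul_self_sqrt (by
      have : 0 ≤ g - t := by linarith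
      positivity)
    have hA0 : 0 < A := Real.sqrt_pos.2 (by positivity)
    have hB0 : 0 ≤ B := Real.sqrt_nonneg _
    have hr : g ≤ n / d * t := by
      rw [div_mul_eq_mul_div, le_div_iff₀ hd]
      linarith
    have hr0 : 0 < n / d := by positivity
    have h1 : A ≤ n / d * a := by
      refine (sq_le_sq₀ hA0.le (by positivity)).1 ?_
      · have h2 : A ^ 2 = n / d * g := by
          rw [pow_two, hA1]
          ring
        rw [h2]
        calc n / d * g ≤ n / d * (n / d * t) := mul_le_mul_of_nonneg_left hr hr0.le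
          _ = (n / d * a) ^ 2 := by
            rw [← haa]
            ring
    have hBA : B ≤ A := by
      rw [hA, hB]
      apply Real.sqrt_le_sqrt
      apply div_le_div_of_nonneg_right _ hd.le
      nlinarith only [hn, ht0]
    have h2 : (A - B) * (A + B) = n / d * (a * a) := by
      have : (A - B) * (A + B) = A * A - B * B := by ring
      rw [this, hA1, hB1, haa]
      ring
    by_contra hcon
    push Not at hcon
    have h3 : A - B < a / 2 := by linarith
    have h4 : A + B ≤ 2 * (n / d * a) := by linarith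
    have h5 : (A - B) * (A + B) < a / 2 * (2 * (n / d * a)) := by
      have h6 : (A - B) * (A + B) ≤ (A - B) * (2 * (n / d * a)) :=
        mul_le_mul_of_nonneg_left h4 (by linarith)
      have h7 : (A - B) * (2 * (n / d * a)) < a / 2 * (2 * (n / d * a)) :=
        mul_lt_mul_of_pos_right h3 (by positivity)
      linarith
    have h6 : a / 2 * (2 * (n / d * a)) = n / d * (a * a) := by ring
    linarith
  linarith

theorem num_final {n d b : ℝ} {k : ℕ} (hn : 0 ≤ n) (hd : 1 ≤ d)
    (h : 2 * (k : ℝ) ≤ n + b + 10 * √(n * n / d) + 5 * n / d) :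
    (k : ℝ) ≤ (1 / 2 + 8 / √d) * n + b / 2 := by
  have hd0 : 0 < d := by linarith
  have hs0 : 0 < √d := Real.sqrt_pos.2 hd0
  have hss : √d * √d = d := Real.mul_self_sqrt hd0.le
  have hs1 : 1 ≤ √d := by
    rw [← Real.sqrt_one]
    exact Real.sqrt_le_sqrt hd
  have h1 : √(n * n / d) = n / √d := by
    rw [Real.sqrt_div (by positivity), Real.sqrt_mul_self hn]
  have h2 : 5 * n / d ≤ 5 * (n / √d) := by
    rw [mul_div_assoc]
    apply mul_le_mul_of_nonneg_left _ (by norm_num)
    apply div_le_div_of_nonneg_left hn hs0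
    nlinarith only [hs1, hss]
  have h3 : (1 / 2 + 8 / √d) * n + b / 2 = n / 2 + 8 * (n / √d) + b / 2 := by
    ring
  rw [h1] at h
  have h4 : 0 ≤ n / √d := by positivity
  rw [h3]
  linarith

end Pool.Agent.Lib.MP_94420a_co
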