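import Pool.Agent.Lib.MP_94420a_co.LTwo
import Pool.Agent.Lib.MP_94420a_co.Num

/-!
# The main theorem

`main_aux`: strong induction on `E.card`, for all `E`, `M`.  Let `n = Fintype.card V`,
`T = ev E \ M`, `g = T.card`.

Case `d * g < 5 * n`: `ltwo` gives `2 * k ≤ n + (ev E).card = n + (ev E ∩ M).card + g` and
`g ≤ 5 * n / d`.

Case `5 * n ≤ d * g`: `exists_many` gives `x` with `d * g ≤ n * t`, `t = (nb E x ∩ T).card`; so `5 ≤ t`.
Let `S = nb E x ∩ ev E`, `m = (S ∩ M).card`, so `S.card = t + m` (`S \ M = nb E x ∩ T`), `E' = E \ st x S`,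
`M' = insert x M`.  For `v ∈ ev E'`, `v ∉ M'`: by `ev_sd_subset` `v ∈ ev E \ S`, `v ≠ x`, so
`dg E' v = dg E v ≥ d` (`dg_sd_other`).  `(ev E' \ M') ⊆ T \ (nb E x ∩ T)`, so its card is `≤ g - t`.
`(ev E' ∩ M') ⊆ insert x ((ev E ∩ M) \ (S ∩ M))`, so its card is `≤ (ev E ∩ M).card - m + 1`.
Induction (`card_sd_st`) gives `k'`, `star_step` gives `c` with `2 * c ≤ t + m` and
`PN E (k' + 3 * Nat.sqrt c)`.  Now `num_step` (`√` is monotone for `g' ≤ g - t`).

`main_thm`: `M = {v | dg E v < d}`, `ev E ∩ M ⊆` the set in the statement, `(ev E \ M).card ≤ n`, `num_final`.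
-/

namespace Pool.Agent.Lib.MP_94420a_co

variable {V : Type} [DecidableEq V] [Fintype V]

theorem main_aux [Nonempty V] (d : ℕ) (hd : 0 < d) : ∀ (N : ℕ) (E : Finset (Sym2 V)), Ll E →
    E.card = N → ∀ M : Finset V, (∀ v ∈ ev E, v ∉ M → d ≤ dg E v) →
    ∃ k, PN E k ∧ 2 * (k : ℝ) ≤ Fintype.card V + ((ev E ∩ M).card : ℝ) +
      10 * √((Fintype.card V : ℝ) * ((ev E \ M).card : ℝ) / d) + 5 * Fintype.card V / d := by
  intro N
  induction N using Nat.strong_induction_on with
  | _ N ih =>
  intro E hE hN M hM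
  have hdR : (0 : ℝ) < d := by exact_mod_cast hd
  have hnR : (0 : ℝ) < Fintype.card V := by exact_mod_cast Fintype.card_pos
  obtain ⟨T, hT⟩ : ∃ T, T = ev E \ M := ⟨_, rfl⟩
  rw [← hT]
  by_cases hcase : (d : ℝ) * T.card < 5 * Fintype.card V
  · obtain ⟨k, hk, hk2⟩ := ltwo hE
    refine ⟨k, hk, ?_⟩
    have hsplit : (ev E ∩ M).card + T.card = (ev E).card := by
      rw [hT]
      exact Finset.card_inter_add_card_sdiff _ _
    rw [← hsplit] at hk2
    have hk3 : (2 : ℝ) * k ≤ Fintype.card V + (((ev E ∩ M).card : ℝ) + T.card) := by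
      exact_mod_cast hk2
    have hg : (T.card : ℝ) ≤ 5 * Fintype.card V / d := by
      rw [le_div_iff₀ hdR]
      linarith
    have h0 : 0 ≤ 10 * √((Fintype.card V : ℝ) * (T.card : ℝ) / d) := by positivity
    linarith
  · rw [not_lt] at hcase
    obtain ⟨x, hx⟩ := exists_many hE T d (fun v hv => by
      rw [hT, Finset.mem_sdiff] at hv
      exact hM v hv.1 hv.2)
    obtain ⟨S, hS⟩ : ∃ S, S = nb E x ∩ ev E := ⟨_, rfl⟩
    obtain ⟨t, ht⟩ : ∃ t, t = (nb E x ∩ T).card := ⟨_, rfl⟩
    obtain ⟨m, hm⟩ : ∃ m, m = (S ∩ M).card := ⟨_, rfl⟩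
    rw [← ht] at hx
    have hxR : (d : ℝ) * T.card ≤ Fintype.card V * t := by exact_mod_cast hx
    have ht5 : (5 : ℝ) ≤ t := by
      have h1 : (5 : ℝ) * Fintype.card V ≤ t * Fintype.card V := by linarith
      exact le_of_mul_le_mul_right h1 hnR
    have hSM : S \ M = nb E x ∩ T := by
      ext v
      rw [hS, hT]
      simp only [Finset.mem_sdiff, Finset.mem_inter]
      tauto
    have hScard : S.card = t + m := by
      have h1 := Finset.card_inter_add_card_sdiff S M
      rw [hSM, ← ht, ← hm] at h1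
      omega
    have htpos : 0 < t := by
      have : (0 : ℝ) < t := by linarith
      exact_mod_cast this
    have hSne : S.Nonempty := by
      rw [← Finset.card_pos]
      omega
    have hSnb : S ⊆ nb E x := by
      rw [hS]
      exact Finset.inter_subset_left
    have hE' : Ll (E \ st x S) := Ll_sd hE _
    have hcard : (E \ st x S).card < N := by
      rw [← hN]
      exact card_sd_st hSnb hSne
    have hsub : ev (E \ st x S) ⊆ insert x (ev E \ S) := by
      rw [hS]
      exact ev_sd_subset hE x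
    have hmem : ∀ v ∈ ev (E \ st x S), v ≠ x → v ∈ ev E ∧ v ∉ S := by
      intro v hv hvx
      have h1 := hsub hv
      rw [Finset.mem_insert, Finset.mem_sdiff] at h1
      exact h1.resolve_left hvx
    have hM' : ∀ v ∈ ev (E \ st x S), v ∉ insert x M → d ≤ dg (E \ st x S) v := by
      intro v hv hvM
      rw [Finset.mem_insert, not_or] at hvM
      obtain ⟨h1, h2⟩ := hmem v hv hvM.1
      rw [dg_sd_other hvM.1 h2]
      exact hM v h1 hvM.2
    obtain ⟨k', hk', hk2'⟩ := ih _ hcard (E \ st x S) hE' rfl (insert x M) hM'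
    rw [hS] at hk'
    obtain ⟨c, hc, -, hk⟩ := star_step hE x hk'
    rw [← hS, hScard] at hc
    have hcR : (2 : ℝ) * c ≤ t + m := by exact_mod_cast hc
    refine ⟨k' + 3 * Nat.sqrt c, hk, ?_⟩
    have b1 : (ev (E \ st x S) \ insert x M).card + t ≤ T.card := by
      have h1 : ev (E \ st x S) \ insert x M ⊆ T \ (nb E x ∩ T) := by
        intro v hv
        rw [Finset.mem_sdiff, Finset.mem_insert, not_or] at hv
        obtain ⟨h2, h3⟩ := hmem v hv.1 hv.2.1
        have h4 : v ∈ T := by
          rw [hT, Finset.mem_sdiff]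
          exact ⟨h2, hv.2.2⟩
        rw [Finset.mem_sdiff, Finset.mem_inter]
        refine ⟨h4, fun h5 => h3 ?_⟩
        rw [hS, Finset.mem_inter]
        exact ⟨h5.1, h2⟩
      have h2 := Finset.card_le_card h1
      have h3 := Finset.card_sdiff_add_card_eq_card (Finset.inter_subset_right : nb E x ∩ T ⊆ T)
      omega
    have b2 : (ev (E \ st x S) ∩ insert x M).card + m ≤ (ev E ∩ M).card + 1 := by
      have h1 : ev (E \ st x S) ∩ insert x M ⊆ insert x ((ev E ∩ M) \ (S ∩ M)) := by
        intro v hv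
        rw [Finset.mem_inter, Finset.mem_insert] at hv
        rw [Finset.mem_insert]
        by_cases hvx : v = x
        · exact Or.inl hvx
        · right
          obtain ⟨h2, h3⟩ := hmem v hv.1 hvx
          rw [Finset.mem_sdiff, Finset.mem_inter, Finset.mem_inter]
          exact ⟨⟨h2, hv.2.resolve_left hvx⟩, fun h4 => h3 h4.1⟩
      have h2 := (Finset.card_le_card h1).trans (Finset.card_insert_le _ _)
      have h4 : S ∩ M ⊆ ev E ∩ M := by
        rw [hS]
        exact Finset.inter_subset_inter_right Finset.inter_subset_right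
      have h3 := Finset.card_sdiff_add_card_eq_card h4
      omega
    have b1R : ((ev (E \ st x S) \ insert x M).card : ℝ) ≤ T.card - t := by
      have : ((ev (E \ st x S) \ insert x M).card : ℝ) + t ≤ T.card := by exact_mod_cast b1
      linarith
    have b2R : ((ev (E \ st x S) ∩ insert x M).card : ℝ) + m ≤ (ev E ∩ M).card + 1 := by
      exact_mod_cast b2
    have hsqrt : √((Fintype.card V : ℝ) * ((ev (E \ st x S) \ insert x M).card : ℝ) / d) ≤
        √((Fintype.card V : ℝ) * (T.card - t) / d) := by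
      refine Real.sqrt_le_sqrt ?_
      refine div_le_div_of_nonneg_right ?_ hdR.le
      exact mul_le_mul_of_nonneg_left b1R hnR.le
    have htg : (t : ℝ) ≤ T.card := by
      have : t ≤ T.card := by omega
      exact_mod_cast this
    have hnum := num_step (n := Fintype.card V) (d := d) (g := T.card) (t := t) (m := m) (c := c)
      hnR hdR (Nat.cast_nonneg m) ht5 htg hxR hcR
    push_cast
    linarith

theorem main_thm [Nonempty V] {E : Finset (Sym2 V)} (hE : Ll E) (d : ℕ) (hd : 0 < d) :
    ∃ k, PN E k ∧ (k : ℝ) ≤ (1 / 2 + 8 / √(d : ℝ)) * Fintype.card V +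
      ((Finset.univ.filter fun v => Even (dg E v) ∧ 0 < dg E v ∧ dg E v < d).card : ℝ) / 2 := by
  have hM : ∀ v ∈ ev E, v ∉ (Finset.univ.filter fun v => dg E v < d) → d ≤ dg E v := by
    intro v _ hv
    rw [Finset.mem_filter, not_and] at hv
    exact not_lt.1 (hv (Finset.mem_univ v))
  obtain ⟨k, hk, hk2⟩ := main_aux d hd E.card E hE rfl _ hM
  refine ⟨k, hk, ?_⟩
  have hdR : (1 : ℝ) ≤ d := by exact_mod_cast hd
  have hd0 : (0 : ℝ) < d := by linarith
  have hnR : (0 : ℝ) ≤ Fintype.card V := Nat.cast_nonneg _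
  refine num_final hnR hdR (hk2.trans ?_)
  have h1 : ((ev E ∩ (Finset.univ.filter fun v => dg E v < d)).card : ℝ) ≤
      ((Finset.univ.filter fun v => Even (dg E v) ∧ 0 < dg E v ∧ dg E v < d).card : ℝ) := by
    have : (ev E ∩ (Finset.univ.filter fun v => dg E v < d)).card ≤
        (Finset.univ.filter fun v => Even (dg E v) ∧ 0 < dg E v ∧ dg E v < d).card := by
      refine Finset.card_le_card fun v hv => ?_
      rw [Finset.mem_inter, mem_ev, Finset.mem_filter] at hv
      rw [Finset.mem_filter]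
      exact ⟨Finset.mem_univ v, hv.1.1, Nat.pos_of_ne_zero hv.1.2, hv.2.2⟩
    exact_mod_cast this
  have h2 : √((Fintype.card V : ℝ) *
      ((ev E \ (Finset.univ.filter fun v => dg E v < d)).card : ℝ) / d) ≤
      √((Fintype.card V : ℝ) * Fintype.card V / d) := by
    refine Real.sqrt_le_sqrt ?_
    refine div_le_div_of_nonneg_right ?_ hd0.le
    refine mul_le_mul_of_nonneg_left ?_ hnR
    exact_mod_cast Finset.card_le_univ _
  linarith

end Pool.Agent.Lib.MP_94420a_co
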