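import Pool.Agent.Lib.MP_94420a_co.OddA

/-!
# Graphs all of whose vertices have odd degree (Lovasz)

(`add_one`, `od_sd_two`, `od_sd_swap`, `od_sd_swap'` are in OddA.)

`odd_main`, by strong induction on `n`.
(O) If `E = ∅`: `PN_empty`.  Otherwise take `s(x, y) ∈ E`, `x ≠ y`; `dg E x`, `dg E y` are odd.
  Let `E' = E \ st x {y} = E.erase s(x, y)`.
  - If `dg E x = dg E y = 1`: in `E'` both have degree `0`, (O) for `E'`, `od E' = od E \ {x, y}` has two
    elements fewer, `PN E' ((od E).card / 2 - 1)`, and `E = E' ∪ le [x, y]`: `PN_union`, `PN_le`.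
  - Otherwise say `dg E x ≥ 3` (else exchange `x` and `y`).  (B) for `E'` with `(x, y)`: `dg E' x`, `dg E' y` are
    even, other degrees as before.  So there is `f : Fin ((od E').card / 2 + 1) → List V` with `PF E' f` and
    `y` an end, `(od E').card + 2 = (od E).card`.  `add_one` (centre `x`): the neighbours of `x` in `E'` are
    odd in `E'` (they are different from `x`, `y`), so ends by `isEnd_of_odd`.  The number of paths is
    `((od E).card - 2) / 2 + 1 = (od E).card / 2`.
(B) Given `x`, `y`.
  - Case 1: `x ≠ y`, `dg E x` even and `≠ 0`, so `≥ 2`: there is a neighbour `w ≠ y` of `x` (`card_nb`);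
    `w ≠ x`, `dg E w` is odd.  `E' = E \ st w {x}`: `dg E' x` odd, `dg E' w` even, (B) for `E'` with `(w, y)`
    gives `f` with `y` an end; `(od E').card = (od E).card` (`od E' = insert x ((od E).erase w)`).
    `add_one` with centre `w` and leaf `x`: the neighbours of `w` in `E'` are odd or equal to `y`, `x` is odd
    in `E'`; `y` remains an end (`y ≠ x`, `y ≠ w`).
  - Case 2: all `v ≠ y` have degree `0` or odd (this includes `x = y`).
    If `dg E y = 0`: (O) for `E`, proved before, and `PF_snoc`.
    Otherwise take `w ∈ nb E y`, `w ≠ y`, `dg E w` odd.  `E' = E \ st y {w}`: `dg E' y` odd, `dg E' w` even;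
    (B) for `E'` with `(w, w)` gives `f` with `w` an end, `(od E').card = (od E).card`.  `add_one` with centre
    `y`, leaf `w`: the neighbours of `y` in `E'` are odd.  The centre `y` is an end (last item).
-/

namespace Pool.Agent.Lib.MP_94420a_co

variable {V : Type} [DecidableEq V] [Fintype V]

private theorem Odd_rem {E : Finset (Sym2 V)} (hE : Ll E) {x w : V} (h : w ∈ nb E x) :
    w ≠ x ∧ (E \ st x {w}).card < E.card ∧ insert s(x, w) (E \ st x {w}) = E ∧
    s(x, w) ∉ E \ st x {w} ∧ dg (E \ st x {w}) x + 1 = dg E x ∧ dg (E \ st x {w}) w + 1 = dg E w ∧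
    ∀ v, v ≠ x → v ≠ w → dg (E \ st x {w}) v = dg E v := by
  have hne : w ≠ x := fun h' => not_mem_nb_self hE x (h' ▸ h)
  have hS : ({w} : Finset V) ⊆ nb E x := Finset.singleton_subset_iff.mpr h
  have hx : x ∉ ({w} : Finset V) := by
    rw [Finset.mem_singleton]
    exact hne.symm
  refine ⟨hne, card_sd_st hS (Finset.singleton_nonempty w), ?_, ?_, ?_, ?_, ?_⟩
  · have h1 := sd_union_st hS
    have h2 : st x {w} = {s(x, w)} := by
      unfold st
      rw [Finset.image_singleton]
    rw [Finset.insert_eq, Finset.union_comm, ← h2]
    exact h1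
  · rw [Finset.mem_sdiff, not_and_not_right]
    intro _
    unfold st
    exact Finset.mem_image_of_mem _ (Finset.mem_singleton_self w)
  · have h1 := dg_sd_center hS hx
    rwa [Finset.card_singleton] at h1
  · exact dg_sd_leaf hS hx (Finset.mem_singleton_self w)
  · intro v hv1 hv2
    exact dg_sd_other hv1 (by
      rw [Finset.mem_singleton]
      exact hv2)

private theorem Odd_end {E : Finset (Sym2 V)} {k : ℕ} {f : Fin k → List V} (h : PF E f) {x v : V}
    (hv : s(x, v) ∈ E) (h2 : dg E v = 0 ∨ Odd (dg E v)) : ∃ i, IsEnd v (f i) := by
  have h3 := (dg_ne_zero (mem_nb.mpr hv)).2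
  exact isEnd_of_odd h (h2.resolve_left h3)

theorem odd_main : ∀ (n : ℕ) (E : Finset (Sym2 V)), Ll E → E.card = n →
    ((∀ v, dg E v = 0 ∨ Odd (dg E v)) → PN E ((od E).card / 2)) ∧
    (∀ x y, Even (dg E y) → (∀ v, v ≠ x → v ≠ y → dg E v = 0 ∨ Odd (dg E v)) →
      ∃ f : Fin ((od E).card / 2 + 1) → List V, PF E f ∧ ∃ i, IsEnd y (f i)) := by
  intro n
  induction n using Nat.strong_induction_on with
  | _ n ih =>
    intro E hE hn
    have hO : (∀ v, dg E v = 0 ∨ Odd (dg E v)) → PN E ((od E).card / 2) := by
      intro hall
      rcases E.eq_empty_or_nonempty with rfl | ⟨e, he⟩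
      · exact PN_empty _
      · induction e using Sym2.ind with
        | _ x y =>
          have hy : y ∈ nb E x := mem_nb.mpr he
          have hx0 := dg_ne_zero hy
          have hxo : Odd (dg E x) := (hall x).resolve_left hx0.1
          have hyo : Odd (dg E y) := (hall y).resolve_left hx0.2
          obtain ⟨h1, h2, h3, h4, h5, h6, h7⟩ := Odd_rem hE hy
          have h8 := od_sd_two hE hy hxo hyo
          obtain ⟨f, hf, hfy⟩ := (ih _ (hn ▸ h2) (E \ st x {y}) (Ll_sd hE _) rfl).2 x y
            (by
              rw [← h6] at hyo
              rcases Nat.even_or_odd (dg (E \ st x {y}) y) with h | h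
              · exact h
              · exact absurd hyo (by
                  rw [Nat.not_odd_iff_even]
                  exact h.add_one))
            (fun v hv1 hv2 => by
              rw [h7 v hv1 hv2]
              exact hall v)
          obtain ⟨g, hg, -⟩ := add_one hf x y h1 h4 (by
            rintro v hvx (hv | rfl)
            · by_cases hvy : v = y
              · rw [hvy]
                exact hfy
              · refine Odd_end hf hv ?_
                rw [h7 v hvx hvy]
                exact hall v
            · exact hfy)
          rw [h3] at hg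
          have h9 : (od (E \ st x {y})).card / 2 + 1 = (od E).card / 2 := by omega
          rw [← h9]
          exact ⟨g, hg⟩
    refine ⟨hO, ?_⟩
    intro x y hy hall
    by_cases hc : x ≠ y ∧ Even (dg E x) ∧ dg E x ≠ 0
    · obtain ⟨hxy, hxe, hx0⟩ := hc
      have hcard : 1 < (nb E x).card := by
        rw [card_nb hE]
        obtain ⟨m, hm⟩ := hxe
        omega
      obtain ⟨w, hw, hwy⟩ := Finset.exists_mem_ne hcard y
      have hwx : w ≠ x := fun h' => not_mem_nb_self hE x (h' ▸ hw)
      have hxw : x ∈ nb E w := mem_nb_comm hw
      have hwo : Odd (dg E w) := (hall w hwx hwy).resolve_left (dg_ne_zero hw).2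
      obtain ⟨h1, h2, h3, h4, h5, h6, h7⟩ := Odd_rem hE hxw
      have hxo' : Odd (dg (E \ st w {x}) x) := by
        rcases Nat.even_or_odd (dg (E \ st w {x}) x) with h | h
        · rw [← h6] at hxe
          exact absurd hxe (by
            rw [Nat.not_even_iff_odd]
            exact h.add_one)
        · exact h
      have hB := (ih _ (hn ▸ h2) (E \ st w {x}) (Ll_sd hE _) rfl).2 w y
        (by
          rw [h7 y hwy.symm hxy.symm]
          exact hy)
        (fun v hv1 hv2 => by
          by_cases hvx : v = x
          · rw [hvx]
            exact Or.inr hxo'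
          · rw [h7 v hv1 hvx]
            exact hall v hvx hv2)
      rw [od_sd_swap hE hxw hwo hxe] at hB
      obtain ⟨f, hf, hfy⟩ := hB
      obtain ⟨g, hg, hg2, -⟩ := add_one hf w x h1 h4 (by
        have hxend : ∃ i, IsEnd x (f i) := isEnd_of_odd hf hxo'
        rintro v hvw (hv | rfl)
        · by_cases hvx : v = x
          · rw [hvx]
            exact hxend
          · by_cases hvy : v = y
            · rw [hvy]
              exact hfy
            · refine Odd_end hf hv ?_
              rw [h7 v hvw hvx]
              exact hall v hvx hvy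
        · exact hxend)
      rw [h3] at hg
      exact ⟨g, hg, hg2 y hxy.symm hwy.symm hfy⟩
    · have hall2 : ∀ v, v ≠ y → dg E v = 0 ∨ Odd (dg E v) := by
        intro v hvy
        by_cases hvx : v = x
        · subst hvx
          by_contra hcon
          push Not at hcon
          exact hc ⟨hvy, by
            rw [← Nat.not_odd_iff_even]
            exact hcon.2, hcon.1⟩
        · exact hall v hvx hvy
      by_cases hy0 : dg E y = 0
      · refine PF_snoc (hO ?_) y
        intro v
        by_cases hvy : v = y
        · rw [hvy]
          exact Or.inl hy0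
        · exact hall2 v hvy
      · have hne : (nb E y).Nonempty := by
          rw [← Finset.card_pos, card_nb hE]
          omega
        obtain ⟨w, hw⟩ := hne
        obtain ⟨h1, h2, h3, h4, h5, h6, h7⟩ := Odd_rem hE hw
        have hwo : Odd (dg E w) := (hall2 w h1).resolve_left (dg_ne_zero hw).2
        have hyo' : Odd (dg (E \ st y {w}) y) := by
          rcases Nat.even_or_odd (dg (E \ st y {w}) y) with h | h
          · rw [← h5] at hy
            exact absurd hy (by
              rw [Nat.not_even_iff_odd]
              exact h.add_one)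
          · exact h
        have hB := (ih _ (hn ▸ h2) (E \ st y {w}) (Ll_sd hE _) rfl).2 w w
          (by
            rw [← h6] at hwo
            rcases Nat.even_or_odd (dg (E \ st y {w}) w) with h | h
            · exact h
            · exact absurd hwo (by
                rw [Nat.not_odd_iff_even]
                exact h.add_one))
          (fun v hv1 _ => by
            by_cases hvy : v = y
            · rw [hvy]
              exact Or.inr hyo'
            · rw [h7 v hvy hv1]
              exact hall2 v hvy)
        rw [od_sd_swap' hE hw hwo hy] at hB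
        obtain ⟨f, hf, hfw⟩ := hB
        obtain ⟨g, hg, -, hg3⟩ := add_one hf y w h1 h4 (by
          rintro v hvy (hv | rfl)
          · by_cases hvw : v = w
            · rw [hvw]
              exact hfw
            · refine Odd_end hf hv ?_
              rw [h7 v hvy hvw]
              exact hall2 v hvy
          · exact hfw)
        rw [h3] at hg
        exact ⟨g, hg, hg3⟩

/-- Lovasz: if all degrees are odd or `0`, half as many paths as odd vertices suffice. -/
theorem odd_pn {E : Finset (Sym2 V)} (hE : Ll E) (h : ∀ v, dg E v = 0 ∨ Odd (dg E v)) :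
    PN E ((od E).card / 2) :=
  (odd_main _ E hE rfl).1 h

end Pool.Agent.Lib.MP_94420a_co
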