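import Pool.Agent.Lib.MP_94420a_co.LB
import Pool.Agent.Lib.MP_94420a_co.PNA
import Pool.Agent.Lib.MP_94420a_co.Star
import Pool.Agent.Lib.MP_94420a_co.Deg

/-!
# Adding one edge, and the number of odd vertices

`add_one`: adding one edge `xy` at the centre `x` when all neighbours of `x` and `y` are ends.
Proof: `star_lemma` with `S = {y}`, `st x {y} = {s(x, y)}`; `2 * C.card ≤ 1` gives `C = ∅`, so all `g i` are
nodup and `PF (insert s(x, y) H) g`.

`od_sd_two`: `od (E \ st x {y}) = ((od E).erase x).erase y` (`dg_sd_center`, `dg_sd_leaf`, `dg_sd_other`).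
`od_sd_swap`: `od (E \ st w {x}) = insert x ((od E).erase w)`, with `x ∉ od E`.
`od_sd_swap'`: `od (E \ st y {w}) = insert y ((od E).erase w)`.
-/

namespace Pool.Agent.Lib.MP_94420a_co

variable {V : Type} [DecidableEq V] [Fintype V]

theorem add_one {k : ℕ} {H : Finset (Sym2 V)} {f : Fin k → List V} (hf : PF H f) (x y : V)
    (hxy : y ≠ x) (hH : s(x, y) ∉ H)
    (hend : ∀ v, v ≠ x → (s(x, v) ∈ H ∨ v = y) → ∃ i, IsEnd v (f i)) :
    ∃ g : Fin k → List V, PF (insert s(x, y) H) g ∧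
      (∀ v, v ≠ y → v ≠ x → (∃ i, IsEnd v (f i)) → ∃ i, IsEnd v (g i)) ∧
      ∃ i, IsEnd x (g i) := by
  obtain ⟨g, C, h1, h2, h3, h4, h5, h6, h7⟩ := star_lemma hf x {y}
    (by rw [Finset.mem_singleton]; exact hxy.symm)
    (by
      intro a ha
      rw [Finset.mem_singleton] at ha
      rw [ha]
      exact hH)
    (by
      intro v hv h
      rw [Finset.mem_singleton] at h
      exact hend v hv h)
  have hC : C = ∅ := by
    rw [Finset.card_singleton] at h5
    exact Finset.card_eq_zero.1 (by omega)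
  refine ⟨g, ⟨fun i => h1 i (by rw [hC]; exact Finset.notMem_empty i), h3, ?_⟩, ?_,
    h7 (Finset.card_singleton y)⟩
  · rw [h4]
    have h8 : st x {y} = {s(x, y)} := by
      unfold st
      exact Finset.image_singleton _ _
    rw [h8, Finset.insert_eq, Finset.union_comm]
  · intro v hv hvx h
    exact h6 v (by rw [Finset.mem_singleton]; exact hv) hvx h

theorem OddA_ne {E : Finset (Sym2 V)} (hE : Ll E) {x y : V} (h : y ∈ nb E x) : y ≠ x := by
  rintro rfl
  exact not_mem_nb_self hE y h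

theorem OddA_od {E : Finset (Sym2 V)} (hE : Ll E) {x y : V} (h : y ∈ nb E x) (v : V) :
    v ∈ od (E \ st x {y}) ↔ ((v = x ∨ v = y) ∧ Even (dg E v)) ∨
      ((v ≠ x ∧ v ≠ y) ∧ Odd (dg E v)) := by
  have hne := OddA_ne hE h
  have hS : ({y} : Finset V) ⊆ nb E x := Finset.singleton_subset_iff.2 h
  have hx : x ∉ ({y} : Finset V) := by
    rw [Finset.mem_singleton]
    exact hne.symm
  rw [mem_od]
  by_cases hvx : v = x
  · subst hvx
    have h1 := dg_sd_center hS hx
    rw [Finset.card_singleton] at h1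
    rw [← h1, Nat.even_add_one, Nat.not_even_iff_odd]
    simp
  · by_cases hvy : v = y
    · subst hvy
      have h1 := dg_sd_leaf hS hx (Finset.mem_singleton_self v)
      rw [← h1, Nat.even_add_one, Nat.not_even_iff_odd]
      simp
    · rw [dg_sd_other hvx (by rw [Finset.mem_singleton]; exact hvy)]
      simp [hvx, hvy]

theorem od_sd_two {E : Finset (Sym2 V)} (hE : Ll E) {x y : V} (h : y ∈ nb E x)
    (hx : Odd (dg E x)) (hy : Odd (dg E y)) :
    (od (E \ st x {y})).card + 2 = (od E).card := by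
  have hne := OddA_ne hE h
  have h1 : od (E \ st x {y}) = ((od E).erase x).erase y := by
    ext v
    rw [OddA_od hE h, Finset.mem_erase, Finset.mem_erase, mem_od]
    constructor
    · rintro (⟨h2 | h2, h3⟩ | ⟨⟨h2, h3⟩, h4⟩)
      · subst h2
        exact absurd h3 (Nat.not_even_iff_odd.2 hx)
      · subst h2
        exact absurd h3 (Nat.not_even_iff_odd.2 hy)
      · exact ⟨h3, h2, h4⟩
    · rintro ⟨h3, h2, h4⟩
      exact Or.inr ⟨⟨h2, h3⟩, h4⟩
  have h2 : x ∈ od E := mem_od.2 hx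
  have h3 : y ∈ (od E).erase x := Finset.mem_erase.2 ⟨hne, mem_od.2 hy⟩
  have h4 := Finset.card_erase_add_one h2
  have h5 := Finset.card_erase_add_one h3
  rw [h1]
  omega

theorem OddA_swap {E : Finset (Sym2 V)} {a b : V} {T : Finset V}
    (hT : T = insert b ((od E).erase a)) (ha : Odd (dg E a)) (hb : Even (dg E b)) :
    T.card = (od E).card := by
  have h2 : a ∈ od E := mem_od.2 ha
  have h3 : b ∉ (od E).erase a := fun h =>
    (Nat.not_even_iff_odd.2 (mem_od.1 (Finset.mem_erase.1 h).2)) hb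
  have h4 := Finset.card_erase_add_one h2
  rw [hT, Finset.card_insert_of_notMem h3]
  exact h4

theorem od_sd_swap {E : Finset (Sym2 V)} (hE : Ll E) {w x : V} (h : x ∈ nb E w)
    (hw : Odd (dg E w)) (hx : Even (dg E x)) :
    (od (E \ st w {x})).card = (od E).card := by
  refine OddA_swap (a := w) (b := x) ?_ hw hx
  ext v
  rw [OddA_od hE h, Finset.mem_insert, Finset.mem_erase, mem_od]
  constructor
  · rintro (⟨h2 | h2, h3⟩ | ⟨⟨h2, h3⟩, h4⟩)
    · subst h2
      exact absurd h3 (Nat.not_even_iff_odd.2 hw)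
    · exact Or.inl h2
    · exact Or.inr ⟨h2, h4⟩
  · rintro (h2 | ⟨h2, h4⟩)
    · subst h2
      exact Or.inl ⟨Or.inr rfl, hx⟩
    · refine Or.inr ⟨⟨h2, ?_⟩, h4⟩
      rintro rfl
      exact (Nat.not_even_iff_odd.2 h4) hx

theorem od_sd_swap' {E : Finset (Sym2 V)} (hE : Ll E) {y w : V} (h : w ∈ nb E y)
    (hw : Odd (dg E w)) (hy : Even (dg E y)) :
    (od (E \ st y {w})).card = (od E).card := by
  refine OddA_swap (a := w) (b := y) ?_ hw hy
  ext v
  rw [OddA_od hE h, Finset.mem_insert, Finset.mem_erase, mem_od]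
  constructor
  · rintro (⟨h2 | h2, h3⟩ | ⟨⟨h2, h3⟩, h4⟩)
    · exact Or.inl h2
    · subst h2
      exact absurd h3 (Nat.not_even_iff_odd.2 hw)
    · exact Or.inr ⟨h3, h4⟩
  · rintro (h2 | ⟨h2, h4⟩)
    · subst h2
      exact Or.inl ⟨Or.inl rfl, hy⟩
    · refine Or.inr ⟨⟨?_, h2⟩, h4⟩
      rintro rfl
      exact (Nat.not_even_iff_odd.2 h4) hy

end Pool.Agent.Lib.MP_94420a_co
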