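import Pool.Agent.Lib.MP_94420a_co.PNA

/-!
# Paths given by their edge and vertex sets

`PW.symm`: reverse the list (`le_reverse`, `List.head?_reverse`, `List.getLast?_reverse`).
`PW.extend`: append `c` (`le_concat`).
`Cyc.ne`: if `NB E W v a` with `a = v` then the list is `[v]` (nodup with equal first and last vertex),
so `W = {v}`, and the other neighbour `a'` lies in `W`, so `a' = v = a`, a contradiction.
-/

namespace Pool.Agent.Lib.MP_94420a_co

variable {V : Type} [DecidableEq V] {E : Finset (Sym2 V)} {W : Finset V} {a b c : V}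

theorem PW.symm (h : PW E W a b) : PW E W b a := by
  obtain ⟨l, h1, h2, h3, h4, h5⟩ := h
  refine ⟨l.reverse, List.nodup_reverse.2 h1, ?_, ?_, ?_, ?_⟩
  · rw [List.head?_reverse, h3]
  · rw [List.getLast?_reverse, h2]
  · rw [List.toFinset_reverse, h4]
  · rw [le_reverse, h5]

theorem PW.extend (h : PW E W a b) (hc : c ∉ W) : PW (insert s(b, c) E) (insert c W) a c := by
  obtain ⟨l, h1, h2, h3, h4, h5⟩ := h
  have hcl : c ∉ l := fun h => hc (by rw [← h4]; exact List.mem_toFinset.2 h)
  refine ⟨l ++ [c], ?_, ?_, ?_, ?_, ?_⟩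
  · rw [← List.concat_eq_append]
    exact List.Nodup.concat hcl h1
  · rw [List.head?_append, h2]
    rfl
  · rw [List.getLast?_append]
    rfl
  · rw [List.toFinset_append, h4]
    ext x
    simp
  · rw [le_concat h3, h5]

theorem PW.pn (h : PW E W a b) : PN E 1 := by
  obtain ⟨l, h1, h2, h3, h4, h5⟩ := h
  rw [← h5]
  exact PN_le h1

theorem PW.left_mem (h : PW E W a b) : a ∈ W := by
  obtain ⟨l, h1, h2, h3, h4, h5⟩ := h
  rw [← h4]
  exact List.mem_toFinset.2 (mem_of_head? h2)

theorem PW.right_mem (h : PW E W a b) : b ∈ W := by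
  obtain ⟨l, h1, h2, h3, h4, h5⟩ := h
  rw [← h4]
  exact List.mem_toFinset.2 (mem_of_getLast? h3)

theorem PWA_same (h : PW E W a a) : W = {a} := by
  obtain ⟨l, h1, h2, h3, h4, h5⟩ := h
  cases l with
  | nil => simp at h2
  | cons x t =>
    have hx : x = a := by simpa using h2
    subst hx
    have ht : t = [] := by
      by_contra hne
      have h6 : t.getLast? = some x := by
        rw [List.getLast?_cons_of_ne_nil hne] at h3
        exact h3
      exact (List.nodup_cons.1 h1).1 (mem_of_getLast? h6)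
    subst ht
    rw [← h4]
    rfl

theorem NB.mem (h : NB E W a b) : b ∈ W := h.2.left_mem

theorem Cyc.ne (h : Cyc E W) (ha : a ∈ W) (hb : NB E W a b) : b ≠ a := by
  rintro rfl
  have hW := PWA_same hb.2
  obtain ⟨c, c', hne, hc, hc'⟩ := h b ha
  have h1 := NB.mem hc
  have h2 := NB.mem hc'
  rw [hW, Finset.mem_singleton] at h1 h2
  exact hne (h1.trans h2.symm)

/-- A cycle is a union of two paths. -/
theorem Cyc.pn_two (h : Cyc E W) (ha : a ∈ W) : PN E 2 := by
  obtain ⟨b, _, _, hb, _⟩ := h a ha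
  have hne : b ≠ a := Cyc.ne h ha hb
  have h1 : PN (E.erase s(a, b)) 1 := hb.2.pn
  have h2 : PN ({s(a, b)} : Finset (Sym2 V)) 1 := by
    have h3 : ({s(a, b)} : Finset (Sym2 V)) = le [a, b] := rfl
    rw [h3]
    exact PN_le (by simp [hne.symm])
  have h4 := PN_union h1 h2 (by
    rw [Finset.disjoint_singleton_right]
    exact Finset.notMem_erase _ _)
  have h5 : E.erase s(a, b) ∪ {s(a, b)} = E := by
    ext e
    by_cases he : e = s(a, b)
    · subst he
      simp [hb.1]
    · simp [he]
  rwa [h5] at h4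

end Pool.Agent.Lib.MP_94420a_co
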