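import Pool.Agent.Lib.MP_94420a_co.Conv

/-!
# Rainbow paths

Induction on `L`, for all `J`, `r`, `v`.

`L = 0`: right alternative with `J₁ = ∅`: `PN (le r) 1` (`PN_le`).

`L + 1`: `q = r.length`, `∑ s ∈ range (L + 1), (q + s) = q + ∑ s ∈ range L, (q + 1 + s)`
(`Finset.sum_range_succ'`).
Let `B` be the set of `i ∈ J` such that all `a` with `NB (E i) (W i) v a` are in `r`.  Choosing for
`i ∈ B` such an `a i` (`Cyc` at `v`), `a i ≠ v` (`Cyc.ne`), so `a i ∈ r.toFinset.erase v`, a set of
`q - 1` elements, and `a` is injective on `B`: `a i = a j` gives `s(v, a i) ∈ E i ∩ E j`.  So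
`B.card ≤ q - 1` (`Finset.card_le_card_of_injOn`).
Let `J' = J \ B`, `J'.card ≥ 1 + ∑ s ∈ range L, (q + 1 + s)`, so `J'` is nonempty.
If every `i ∈ J'` has some `a` with `NB (E i) (W i) v a` and some `j ∈ J'` with `a ∉ W j`: `conv`
gives the left alternative.
Otherwise there is `j ∈ J'` such that `NB (E j) (W j) v a` implies `a ∈ W i` for all `i ∈ J'`.  As
`j ∉ B` there is `a` with `NB (E j) (W j) v a` and `a ∉ r`.  Apply the induction hypothesis to
`J'.erase j` and the list `a :: r` (head `a`, nodup, length `q + 1`, `le (a :: r) = insert s(a, v) (le r)`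
by `le_cons_head`, disjoint from `E i`, `i ∈ J'.erase j`, because `s(v, a) ∈ E j`).  Left alternative:
done.  Right alternative: `J₁' ⊆ J'.erase j` with `L` elements and `PN (le (a :: r) ∪ J₁'.biUnion E)
(L + 1)`; take `J₁ = insert j J₁'`: `le r ∪ J₁.biUnion E` is the disjoint union of
`le (a :: r) ∪ J₁'.biUnion E` and `(E j).erase s(v, a)` (a path by `NB`, `PW.pn`).  `PN_union`.
-/

namespace Pool.Agent.Lib.MP_94420a_co

variable {V : Type} [DecidableEq V]

theorem rain_aux {ι : Type} [DecidableEq ι] (E : ι → Finset (Sym2 V)) (W : ι → Finset V) (L : ℕ) :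
    ∀ (J : Finset ι) (r : List V) (v : V), (∀ i ∈ J, Cyc (E i) (W i)) →
      (∀ i ∈ J, ∀ j ∈ J, i ≠ j → Disjoint (E i) (E j)) → r.Nodup → r.head? = some v →
      (∀ i ∈ J, Disjoint (le r) (E i)) → (∀ i ∈ J, v ∈ W i) →
      ∑ s ∈ Finset.range L, (r.length + s) ≤ J.card →
      (∃ P ⊆ J, P.Nonempty ∧ PN (P.biUnion E) P.card) ∨
        ∃ P ⊆ J, P.card = L ∧ PN (le r ∪ P.biUnion E) (L + 1) := by
  classical
  induction L with
  | zero =>
    intro J r v _ _ hr _ _ _ _
    refine Or.inr ⟨∅, Finset.empty_subset _, Finset.card_empty, ?_⟩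
    rw [Finset.biUnion_empty, Finset.union_empty]
    exact PN_le hr
  | succ L ih =>
    intro J r v hc hd hr hv hdr hvW hcard
    rw [Finset.sum_range_succ'] at hcard
    simp only [Nat.add_zero] at hcard
    have hsum : ∑ s ∈ Finset.range L, (r.length + (s + 1)) =
        ∑ s ∈ Finset.range L, (r.length + 1 + s) :=
      Finset.sum_congr rfl fun s _ => by omega
    rw [hsum] at hcard
    have hvr : v ∈ r := mem_of_head? hv
    -- the bad indices
    set B : Finset ι := J.filter fun i => ∀ a, NB (E i) (W i) v a → a ∈ r with hB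
    have hex : ∀ i ∈ J, ∃ a, NB (E i) (W i) v a := by
      intro i hi
      obtain ⟨a, -, -, ha, -⟩ := hc i hi v (hvW i hi)
      exact ⟨a, ha⟩
    haveI : Nonempty V := ⟨v⟩
    choose! nbr hnbr using hex
    have hBcard : B.card ≤ r.length - 1 := by
      have h1 : B.card ≤ (r.toFinset.erase v).card := by
        apply Finset.card_le_card_of_injOn nbr
        · intro i hi
          rw [Finset.mem_coe, hB, Finset.mem_filter] at hi
          rw [Finset.mem_coe, Finset.mem_erase, List.mem_toFinset]
          exact ⟨(hc i hi.1).ne (hvW i hi.1) (hnbr i hi.1), hi.2 _ (hnbr i hi.1)⟩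
        · intro i hi j hj hij
          rw [Finset.mem_coe, hB, Finset.mem_filter] at hi hj
          by_contra hne
          have h1 := (hnbr i hi.1).1
          have h2 := (hnbr j hj.1).1
          rw [← hij] at h2
          exact Finset.disjoint_left.1 (hd i hi.1 j hj.1 hne) h1 h2
      refine h1.trans ?_
      rw [Finset.card_erase_of_mem (List.mem_toFinset.2 hvr)]
      exact Nat.sub_le_sub_right (List.toFinset_card_le r) 1
    have hrpos : 1 ≤ r.length := List.length_pos_of_mem hvr
    set J' : Finset ι := J \ B with hJ'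
    have hJ'card : 1 + ∑ s ∈ Finset.range L, (r.length + 1 + s) ≤ J'.card := by
      have h1 : J'.card = J.card - B.card :=
        Finset.card_sdiff_of_subset (Finset.filter_subset _ _)
      omega
    have hJ'J : J' ⊆ J := Finset.sdiff_subset
    by_cases hcase : ∀ i ∈ J', ∃ a, NB (E i) (W i) v a ∧ ∃ j ∈ J', a ∉ W j
    · left
      have hne : J'.Nonempty := by
        rw [← Finset.card_pos]
        omega
      obtain ⟨P, hP, hP1, hP2⟩ := conv J' hne E W
        (fun i hi j hj => hd i (hJ'J hi) j (hJ'J hj)) v hcase
      exact ⟨P, hP.trans hJ'J, hP1, hP2⟩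
    · push Not at hcase
      obtain ⟨j, hj, hjW⟩ := hcase
      have hjJ : j ∈ J := hJ'J hj
      have hjB : j ∉ B := (Finset.mem_sdiff.1 hj).2
      have hjB' : ∃ a, NB (E j) (W j) v a ∧ a ∉ r := by
        by_contra hcon
        push Not at hcon
        exact hjB (by rw [hB, Finset.mem_filter]; exact ⟨hjJ, hcon⟩)
      obtain ⟨a, haN, har⟩ := hjB'
      have hle : le (a :: r) = insert s(a, v) (le r) := le_cons_head hv a
      have hav : s(a, v) ∈ E j := by
        rw [Sym2.eq_swap]
        exact haN.1
      have hsub : J'.erase j ⊆ J := (Finset.erase_subset _ _).trans hJ'J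
      have hih := ih (J'.erase j) (a :: r) a (fun i hi => hc i (hsub hi))
        (fun i hi k hk => hd i (hsub hi) k (hsub hk)) (List.nodup_cons.2 ⟨har, hr⟩) rfl
        (by
          intro i hi
          rw [hle, Finset.disjoint_insert_left]
          refine ⟨fun hmem => ?_, hdr i (hsub hi)⟩
          exact Finset.disjoint_left.1 (hd j hjJ i (hsub hi) (Finset.ne_of_mem_erase hi).symm)
            hav hmem)
        (fun i hi => hjW a haN i (Finset.mem_of_mem_erase hi))
        (by
          rw [Finset.card_erase_of_mem hj, List.length_cons]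
          omega)
      rcases hih with ⟨P, hP, hP1, hP2⟩ | ⟨P, hP, hP1, hP2⟩
      · exact Or.inl ⟨P, hP.trans hsub, hP1, hP2⟩
      · right
        have hjP : j ∉ P := fun h => Finset.notMem_erase j J' (hP h)
        refine ⟨insert j P, ?_, ?_, ?_⟩
        · intro i hi
          rcases Finset.mem_insert.1 hi with rfl | hi
          · exact hjJ
          · exact hsub (hP hi)
        · rw [Finset.card_insert_of_notMem hjP, hP1]
        · have hpath : PN ((E j).erase s(v, a)) 1 := haN.2.pn
          have hdis : Disjoint (le (a :: r) ∪ P.biUnion E) ((E j).erase s(v, a)) := by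
            rw [Finset.disjoint_union_left]
            constructor
            · rw [hle, Finset.disjoint_insert_left]
              constructor
              · rw [Sym2.eq_swap]
                exact Finset.notMem_erase _ _
              · exact (hdr j hjJ).mono_right (Finset.erase_subset _ _)
            · rw [Finset.disjoint_biUnion_left]
              intro i hi
              refine (hd i (hsub (hP hi)) j hjJ ?_).mono_right (Finset.erase_subset _ _)
              rintro rfl
              exact hjP hi
          have hun := PN_union hP2 hpath hdis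
          have heq : le r ∪ (insert j P).biUnion E =
              le (a :: r) ∪ P.biUnion E ∪ (E j).erase s(v, a) := by
            rw [Finset.biUnion_insert, hle]
            ext e
            simp only [Finset.mem_union, Finset.mem_insert, Finset.mem_erase]
            have h1 : s(a, v) = s(v, a) := Sym2.eq_swap
            by_cases he : e = s(v, a)
            · subst he
              have := haN.1
              simp [h1, this]
            · rw [h1]
              tauto
          rw [heq]
          exact hun

/-- Take `r = [x]`; `∑ s ∈ range L, (1 + s) ≤ L ^ 2`. -/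
theorem rain {ι : Type} [DecidableEq ι] (E : ι → Finset (Sym2 V)) (W : ι → Finset V) (L : ℕ)
    (J : Finset ι) (x : V) (hc : ∀ i ∈ J, Cyc (E i) (W i))
    (hd : ∀ i ∈ J, ∀ j ∈ J, i ≠ j → Disjoint (E i) (E j)) (hx : ∀ i ∈ J, x ∈ W i)
    (hL : L ^ 2 ≤ J.card) :
    (∃ P ⊆ J, P.Nonempty ∧ PN (P.biUnion E) P.card) ∨
      ∃ P ⊆ J, P.card = L ∧ PN (P.biUnion E) (L + 1) := by
  have hsum : ∀ n : ℕ, ∑ s ∈ Finset.range n, (1 + s) ≤ n ^ 2 := by
    intro n
    induction n with
    | zero => simp
    | succ n ih =>
      rw [Finset.sum_range_succ]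
      nlinarith
  have h := rain_aux E W L J [x] x hc hd (List.nodup_singleton x) rfl
    (fun i _ => by rw [le_singleton]; exact Finset.disjoint_empty_left _) hx
    (by rw [List.length_singleton]; exact (hsum L).trans hL)
  rw [le_singleton] at h
  simpa only [Finset.empty_union] using h

end Pool.Agent.Lib.MP_94420a_co
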