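import Pool.Agent.Lib.MP_94420a_co.LA

/-!
# Splitting a path at a vertex

`bf_af`: `l = takeWhile ++ dropWhile` (`List.takeWhile_append_dropWhile`), and the head of
`dropWhile (· ≠ x)` is `x` when `x ∈ l`.
`bf_af_eq`: for `x ∉ l₁` the splitting is unique.
From `l = bf x l ++ x :: af x l` and `l.Nodup`: `x ∉ bf x l`, `x ∉ af x l`, the two parts are disjoint;
`le l` is the union of `le (bf x l)`, `le (af x l)` and the edges `s(x, z)` with `z` the last vertex of
`bf x l` resp. the first vertex of `af x l`.  All statements below follow (case `x ∉ l`: all edges of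
`l` avoid `x`).
-/

namespace Pool.Agent.Lib.MP_94420a_co

variable {V : Type} [DecidableEq V]

theorem bf_af {x : V} {l : List V} (h : x ∈ l) : bf x l ++ x :: af x l = l := by
  induction l with
  | nil => simp at h
  | cons a t ih =>
    by_cases hax : a = x
    · subst hax; simp [bf, af]
    · have hx : x ∈ t := by
        rcases List.mem_cons.1 h with h | h
        · exact absurd h.symm hax
        · exact h
      have h1 : bf x (a :: t) = a :: bf x t := by simp [bf, hax]
      have h2 : af x (a :: t) = af x t := by simp [af, hax]
      rw [h1, h2, List.cons_append, ih hx]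

theorem not_mem_bf (x : V) (l : List V) : x ∉ bf x l := by
  intro h
  have := List.mem_takeWhile_imp h
  simp at this

/-- The edges of `α ++ x :: β` when `x` is not on `α`, `β`. -/
theorem mem_le_split {x : V} {α β : List V} (hα : x ∉ α) (hβ : x ∉ β) (e : Sym2 V) :
    e ∈ le (α ++ x :: β) ↔ (e ∈ le α ∨ e ∈ le β) ∨ (∃ z, α.getLast? = some z ∧ e = s(x, z)) ∨
      ∃ z, β.head? = some z ∧ e = s(x, z) := by
  have h1 : e ∈ le (α ++ [x]) ↔ e ∈ le α ∨ ∃ z, α.getLast? = some z ∧ e = s(x, z) := by
    rcases h : α.getLast? with _ | z
    · rw [List.getLast?_eq_none_iff] at h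
      subst h
      simp [le]
    · rw [le_concat h, Finset.mem_insert]
      constructor
      · rintro (h | h)
        · exact Or.inr ⟨z, rfl, by rw [h, Sym2.eq_swap]⟩
        · exact Or.inl h
      · rintro (h | ⟨z', hz', h⟩)
        · exact Or.inr h
        · obtain rfl : z = z' := by simpa using hz'
          exact Or.inl (by rw [h, Sym2.eq_swap])
  have h2 : e ∈ le (x :: β) ↔ e ∈ le β ∨ ∃ z, β.head? = some z ∧ e = s(x, z) := by
    rcases h : β.head? with _ | z
    · rw [List.head?_eq_none_iff] at h
      subst h
      simp [le]
    · rw [le_cons_head h, Finset.mem_insert]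
      constructor
      · rintro (h | h)
        · exact Or.inr ⟨z, rfl, h⟩
        · exact Or.inl h
      · rintro (h | ⟨z', hz', h⟩)
        · exact Or.inr h
        · obtain rfl : z = z' := by simpa using hz'
          exact Or.inl h
  rw [le_append_cons, Finset.mem_union, h1, h2]
  constructor
  · rintro ((h | h) | (h | h))
    · exact Or.inl (Or.inl h)
    · exact Or.inr (Or.inl h)
    · exact Or.inl (Or.inr h)
    · exact Or.inr (Or.inr h)
  · rintro ((h | h) | (h | h))
    · exact Or.inl (Or.inl h)
    · exact Or.inr (Or.inl h)
    · exact Or.inl (Or.inr h)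
    · exact Or.inr (Or.inr h)

private theorem not_mem_af {x : V} {l : List V} (hl : l.Nodup) (hx : x ∈ l) : x ∉ af x l := by
  rw [← bf_af hx, List.nodup_append] at hl
  have := hl.2.1
  rw [List.nodup_cons] at this
  exact this.1

theorem out_of_isEnd {x v : V} {l : List V} (hl : l.Nodup) (h : IsEnd v l) (hv : v ≠ x) :
    ∃ b, out x l b = some v := by
  by_cases hx : x ∈ l
  · rcases h with h | h
    · refine ⟨false, ?_⟩
      rw [← bf_af hx] at h
      simp only [out, hx, if_true, Bool.false_eq_true, if_false]
      rcases hb : bf x l with _ | ⟨a, t⟩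
      · rw [hb] at h
        simp only [List.nil_append, List.head?_cons, Option.some.injEq] at h
        exact absurd h.symm hv
      · rw [hb] at h
        simpa using h
    · refine ⟨true, ?_⟩
      rw [← bf_af hx] at h
      simp only [out, hx, if_true]
      rcases hb : af x l with _ | ⟨a, t⟩
      · rw [hb] at h
        simp only [List.getLast?_append, List.getLast?_singleton, Option.some_or,
          Option.some.injEq] at h
        exact absurd h.symm hv
      · rw [hb] at h
        rw [List.getLast?_append, List.getLast?_cons_cons] at h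
        rw [← h]
        rw [List.getLast?_eq_some_getLast (List.cons_ne_nil a t)]
        rfl
  · rcases h with h | h
    · exact ⟨false, by simpa [out, hx] using h⟩
    · exact ⟨true, by simpa [out, hx] using h⟩

theorem inn_mem {x z : V} {l : List V} (hl : l.Nodup) {b : Bool} (h : inn x l b = some z) :
    s(x, z) ∈ le l := by
  by_cases hx : x ∈ l
  · simp only [inn, hx, if_true] at h
    rw [← bf_af hx, mem_le_split (not_mem_bf x l) (not_mem_af hl hx)]
    cases b with
    | true => exact Or.inr (Or.inr ⟨z, by simpa using h, rfl⟩)
    | false => exact Or.inr (Or.inl ⟨z, by simpa using h, rfl⟩)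
  · simp [inn, hx] at h

theorem inn_of_mem {x z : V} {l : List V} (hl : l.Nodup) (h : s(x, z) ∈ le l) :
    ∃ b, inn x l b = some z := by
  have hx : x ∈ l := mem_of_mem_le h (Sym2.mem_mk_left x z)
  have h' := h
  rw [← bf_af hx, mem_le_split (not_mem_bf x l) (not_mem_af hl hx)] at h'
  rcases h' with (h1 | h1) | ⟨z', h1, h2⟩ | ⟨z', h1, h2⟩
  · exact absurd (mem_of_mem_le h1 (Sym2.mem_mk_left x z)) (not_mem_bf x l)
  · exact absurd (mem_of_mem_le h1 (Sym2.mem_mk_left x z)) (not_mem_af hl hx)
  · obtain rfl := Sym2.congr_right.1 h2
    exact ⟨false, by simpa [inn, hx] using h1⟩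
  · obtain rfl := Sym2.congr_right.1 h2
    exact ⟨true, by simpa [inn, hx] using h1⟩

theorem inn_inj {x z : V} {l : List V} (hl : l.Nodup) {b b' : Bool} (h : inn x l b = some z)
    (h' : inn x l b' = some z) : b = b' := by
  by_cases hx : x ∈ l
  · have hdis : ∀ y, y ∈ bf x l → y ∈ af x l → False := by
      intro y h1 h2
      have hl' := hl
      rw [← bf_af hx, List.nodup_append] at hl'
      exact hl'.2.2 y h1 y (List.mem_cons_of_mem _ h2) rfl
    cases b with
    | true =>
      cases b' with
      | true => rfl
      | false =>
        simp only [inn, hx, if_true, Bool.false_eq_true, if_false] at h h'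
        exact (hdis z (mem_of_getLast? h') (mem_of_head? h)).elim
    | false =>
      cases b' with
      | false => rfl
      | true =>
        simp only [inn, hx, if_true, Bool.false_eq_true, if_false] at h h'
        exact (hdis z (mem_of_getLast? h) (mem_of_head? h')).elim
  · simp [inn, hx] at h

theorem out_ne {x v : V} {l : List V} (hl : l.Nodup) {b : Bool} (h : out x l b = some v) :
    v ≠ x := by
  rintro rfl
  by_cases hx : v ∈ l
  · cases b with
    | true =>
      simp only [out, hx, if_true] at h
      exact not_mem_af hl hx (mem_of_getLast? h)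
    | false =>
      simp only [out, hx, if_true, Bool.false_eq_true, if_false] at h
      exact not_mem_bf v l (mem_of_head? h)
  · cases b with
    | true =>
      simp only [out, hx, if_true, if_false] at h
      exact hx (mem_of_getLast? h)
    | false =>
      simp only [out, hx, Bool.false_eq_true, if_false] at h
      exact hx (mem_of_head? h)

end Pool.Agent.Lib.MP_94420a_co
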