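import Pool.Agent.Lib.MP_94420a_co.SegA

/-!
# The modified path

Case `x ∈ l`: `md x l p q = α' ++ x :: β'` with `α' = bf x l` or its reverse, `β' = af x l` or its
reverse; use `mem_le_split` for `md` and for `l = bf x l ++ x :: af x l`, `le_reverse`,
`List.head?_reverse`, `List.getLast?_reverse`.  The edges of `l` avoiding `x` are those of `le (bf x l)`
and `le (af x l)`.
Case `x ∉ l`: `out x l false = l.head?`, `out x l true = l.getLast?`, `inn = none`, all edges of `l` avoid
`x`; `le_cons_head`, `le_concat` (if `l = []` then `p = q = false` by `hp`, `hq`).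
-/

namespace Pool.Agent.Lib.MP_94420a_co

variable {V : Type} [DecidableEq V]

theorem mem_le_md {x : V} {l : List V} (hl : l.Nodup) {p q : Bool}
    (hp : p = true → ∃ v, out x l false = some v) (hq : q = true → ∃ v, out x l true = some v)
    (e : Sym2 V) :
    e ∈ le (md x l p q) ↔ (x ∉ e ∧ e ∈ le l) ∨
      (p = true ∧ ∃ v, out x l false = some v ∧ e = s(x, v)) ∨
      (q = true ∧ ∃ v, out x l true = some v ∧ e = s(x, v)) ∨
      (p = false ∧ ∃ z, inn x l false = some z ∧ e = s(x, z)) ∨
      (q = false ∧ ∃ z, inn x l true = some z ∧ e = s(x, z)) := by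
  by_cases hx : x ∈ l
  · have hsplit := bf_af hx
    have hα : x ∉ bf x l := not_mem_bf x l
    have hβ : x ∉ af x l := by
      rw [← hsplit] at hl
      have h1 := (List.nodup_append.mp hl).2.1
      exact (List.nodup_cons.mp h1).1
    have ho1 : out x l false = (bf x l).head? := by
      unfold out
      rw [if_pos hx]
      rfl
    have ho2 : out x l true = (af x l).getLast? := by
      unfold out
      rw [if_pos hx]
      rfl
    have hi1 : inn x l false = (bf x l).getLast? := by
      unfold inn
      rw [if_pos hx]
      rfl
    have hi2 : inn x l true = (af x l).head? := by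
      unfold inn
      rw [if_pos hx]
      rfl
    have hmd : md x l p q = (if p then (bf x l).reverse else bf x l) ++
        x :: (if q then (af x l).reverse else af x l) := by
      unfold md
      rw [if_pos hx]
    have hα' : x ∉ (if p then (bf x l).reverse else bf x l) := by
      cases p
      · exact hα
      · show x ∉ (bf x l).reverse
        rw [List.mem_reverse]
        exact hα
    have hβ' : x ∉ (if q then (af x l).reverse else af x l) := by
      cases q
      · exact hβ
      · show x ∉ (af x l).reverse
        rw [List.mem_reverse]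
        exact hβ
    have hle1 : le (if p then (bf x l).reverse else bf x l) = le (bf x l) := by
      cases p
      · rfl
      · exact le_reverse _
    have hle2 : le (if q then (af x l).reverse else af x l) = le (af x l) := by
      cases q
      · rfl
      · exact le_reverse _
    have hmain : (x ∉ e ∧ e ∈ le l) ↔ (e ∈ le (bf x l) ∨ e ∈ le (af x l)) := by
      have h1 := mem_le_split hα hβ e
      rw [hsplit] at h1
      rw [h1]
      constructor
      · rintro ⟨h2, h3 | ⟨z, _, h3⟩ | ⟨z, _, h3⟩⟩
        · exact h3
        · exact absurd (by rw [h3]; exact Sym2.mem_mk_left x z) h2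
        · exact absurd (by rw [h3]; exact Sym2.mem_mk_left x z) h2
      · rintro (h2 | h2)
        · exact ⟨fun h => hα (mem_of_mem_le h2 h), Or.inl (Or.inl h2)⟩
        · exact ⟨fun h => hβ (mem_of_mem_le h2 h), Or.inl (Or.inr h2)⟩
    rw [hmd, mem_le_split hα' hβ' e, hle1, hle2, hmain, ho1, ho2, hi1, hi2]
    have hl1 : (if p then (bf x l).reverse else bf x l).getLast? =
        if p then (bf x l).head? else (bf x l).getLast? := by
      cases p
      · rfl
      · exact List.getLast?_reverse
    have hl2 : (if q then (af x l).reverse else af x l).head? =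
        if q then (af x l).getLast? else (af x l).head? := by
      cases q
      · rfl
      · exact List.head?_reverse
    rw [hl1, hl2]
    have habs : ∀ (p q : Bool) (A P1 P2 Q1 Q2 : Prop),
        (A ∨ (if p then P1 else Q1) ∨ (if q then P2 else Q2)) ↔
          A ∨ (p = true ∧ P1) ∨ (q = true ∧ P2) ∨ (p = false ∧ Q1) ∨ (q = false ∧ Q2) := by
      intro p q A P1 P2 Q1 Q2
      cases p <;> cases q <;> simp [or_comm]
    rw [← habs]
    have h5 : (∃ z, (if p then (bf x l).head? else (bf x l).getLast?) = some z ∧ e = s(x, z)) ↔
        (if p then ∃ v, (bf x l).head? = some v ∧ e = s(x, v) else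
          ∃ z, (bf x l).getLast? = some z ∧ e = s(x, z)) := by
      cases p
      · exact Iff.rfl
      · exact Iff.rfl
    have h6 : (∃ z, (if q then (af x l).getLast? else (af x l).head?) = some z ∧ e = s(x, z)) ↔
        (if q then ∃ v, (af x l).getLast? = some v ∧ e = s(x, v) else
          ∃ z, (af x l).head? = some z ∧ e = s(x, z)) := by
      cases q
      · exact Iff.rfl
      · exact Iff.rfl
    rw [h5, h6]
  · have ho1 : out x l false = l.head? := by
      unfold out
      rw [if_neg hx]
      rfl
    have ho2 : out x l true = l.getLast? := by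
      unfold out
      rw [if_neg hx]
      rfl
    have hi1 : inn x l false = none := by
      unfold inn
      rw [if_neg hx]
    have hi2 : inn x l true = none := by
      unfold inn
      rw [if_neg hx]
    have hmd : md x l p q = (if p then [x] else []) ++ (l ++ (if q then [x] else [])) := by
      unfold md
      rw [if_neg hx]
    have hmain : (x ∉ e ∧ e ∈ le l) ↔ e ∈ le l :=
      ⟨fun h => h.2, fun h => ⟨fun h' => hx (mem_of_mem_le h h'), h⟩⟩
    rw [ho1] at hp
    rw [ho2] at hq
    rw [hmd, hmain, ho1, ho2, hi1, hi2]
    have hq' : e ∈ le (l ++ (if q then [x] else [])) ↔ e ∈ le l ∨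
        (q = true ∧ ∃ v, l.getLast? = some v ∧ e = s(x, v)) := by
      cases q
      · simp
      · obtain ⟨w, hw⟩ := hq rfl
        rw [if_pos rfl, le_concat hw, Finset.mem_insert, hw]
        constructor
        · rintro (h | h)
          · exact Or.inr ⟨rfl, w, rfl, by rw [h, Sym2.eq_swap]⟩
          · exact Or.inl h
        · rintro (h | ⟨_, v, hv, h⟩)
          · exact Or.inr h
          · left
            rw [Option.some.injEq] at hv
            rw [h, ← hv, Sym2.eq_swap]
    have hhead : ∀ v, l.head? = some v → (l ++ (if q then [x] else [])).head? = some v := by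
      intro v hv
      rw [List.head?_append, hv]
      rfl
    have hp' : e ∈ le ((if p then [x] else []) ++ (l ++ (if q then [x] else []))) ↔
        e ∈ le (l ++ (if q then [x] else [])) ∨
        (p = true ∧ ∃ v, l.head? = some v ∧ e = s(x, v)) := by
      cases p
      · simp
      · obtain ⟨w, hw⟩ := hp rfl
        rw [if_pos rfl, List.singleton_append, le_cons_head (hhead w hw), Finset.mem_insert, hw]
        constructor
        · rintro (h | h)
          · exact Or.inr ⟨rfl, w, rfl, h⟩
          · exact Or.inl h
        · rintro (h | ⟨_, v, hv, h⟩)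
          · exact Or.inr h
          · left
            rw [Option.some.injEq] at hv
            rw [h, ← hv]
    rw [hp', hq']
    have h7 : ∀ r : Bool, ¬ (r = false ∧ ∃ z, (none : Option V) = some z ∧ e = s(x, z)) := by
      rintro r ⟨_, z, hz, _⟩
      cases hz
    have h8 : ∀ A P Q R S : Prop, ¬ R → ¬ S → (((A ∨ Q) ∨ P) ↔ (A ∨ P ∨ Q ∨ R ∨ S)) := by
      intro A P Q R S hR hS
      constructor
      · rintro ((h | h) | h)
        · exact Or.inl h
        · exact Or.inr (Or.inr (Or.inl h))
        · exact Or.inr (Or.inl h)
      · rintro (h | h | h | h | h)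
        · exact Or.inl (Or.inl h)
        · exact Or.inr h
        · exact Or.inl (Or.inr h)
        · exact absurd h hR
        · exact absurd h hS
    exact h8 _ _ _ _ _ (h7 p) (h7 q)

end Pool.Agent.Lib.MP_94420a_co
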