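import Pool.Agent.Lib.MP_94420a_co.SegB

/-!
# The edges of the modified family

Rewrite `mem_le_md` (with `p = decide ((i, false) ∈ F)`, `q = decide ((i, true) ∈ F)`) in terms of the
set `F` of sides: the sides `τ` with `τ.1 = i` are `(i, false)` and `(i, true)`.
-/

namespace Pool.Agent.Lib.MP_94420a_co

variable {V : Type} [DecidableEq V]

theorem mem_le_g {k : ℕ} {f : Fin k → List V} (hn : ∀ i, (f i).Nodup) (x : V)
    (F : Finset (Fin k × Bool)) (hF : ∀ τ ∈ F, ∃ v, out x (f τ.1) τ.2 = some v) (i : Fin k)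
    (e : Sym2 V) :
    e ∈ le (md x (f i) (decide ((i, false) ∈ F)) (decide ((i, true) ∈ F))) ↔
      (x ∉ e ∧ e ∈ le (f i)) ∨
      (∃ τ ∈ F, τ.1 = i ∧ ∃ v, out x (f τ.1) τ.2 = some v ∧ e = s(x, v)) ∨
      (∃ τ, τ ∉ F ∧ τ.1 = i ∧ ∃ z, inn x (f τ.1) τ.2 = some z ∧ e = s(x, z)) := by
  have hp : decide ((i, false) ∈ F) = true → ∃ v, out x (f i) false = some v := fun h =>
    hF (i, false) (of_decide_eq_true h)
  have hq : decide ((i, true) ∈ F) = true → ∃ v, out x (f i) true = some v := fun h =>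
    hF (i, true) (of_decide_eq_true h)
  rw [mem_le_md (hn i) hp hq e]
  rw [decide_eq_true_iff, decide_eq_true_iff, decide_eq_false_iff_not, decide_eq_false_iff_not]
  constructor
  · rintro (h | ⟨h1, h2⟩ | ⟨h1, h2⟩ | ⟨h1, h2⟩ | ⟨h1, h2⟩)
    · exact Or.inl h
    · exact Or.inr (Or.inl ⟨(i, false), h1, rfl, h2⟩)
    · exact Or.inr (Or.inl ⟨(i, true), h1, rfl, h2⟩)
    · exact Or.inr (Or.inr ⟨(i, false), h1, rfl, h2⟩)
    · exact Or.inr (Or.inr ⟨(i, true), h1, rfl, h2⟩)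
  · rintro (h | ⟨⟨j, b⟩, h1, h3, h2⟩ | ⟨⟨j, b⟩, h1, h3, h2⟩)
    · exact Or.inl h
    · have h4 : j = i := h3
      subst h4
      cases b
      · exact Or.inr (Or.inl ⟨h1, h2⟩)
      · exact Or.inr (Or.inr (Or.inl ⟨h1, h2⟩))
    · have h4 : j = i := h3
      subst h4
      cases b
      · exact Or.inr (Or.inr (Or.inr (Or.inl ⟨h1, h2⟩)))
      · exact Or.inr (Or.inr (Or.inr (Or.inr ⟨h1, h2⟩)))

end Pool.Agent.Lib.MP_94420a_co
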